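import Mathlib

set_option autoImplicit false

namespace Pool.Agent.Helper734.PV

open MeasureTheory Set Filter Topology Metric
open scoped ENNReal NNReal RealInnerProductSpace Pointwise

abbrev En (n : ℕ) := EuclideanSpace ℝ (Fin n)

/-- conformal factor of stereographic projection -/
noncomputable def lam {n : ℕ} (y : En n) : ℝ := 2 / (1 + ‖y‖ ^ 2)

/-- the covariant derivative of the unit field given by `U`, in the reflected frame -/
noncomputable def Mop {n : ℕ} (U : En n → En n) (y : En n) : En n →L[ℝ] En n :=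
  (lam y)⁻¹ • fderiv ℝ U y + (innerSL ℝ (U y)).smulRight y
    - (inner ℝ y (U y)) • ContinuousLinearMap.id ℝ (En n)

/-- `det (1 + Mᵀ M)` -/
noncomputable def gram {E : Type*} [NormedAddCommGroup E] [InnerProductSpace ℝ E]
    [FiniteDimensional ℝ E] (M : E →L[ℝ] E) : ℝ :=
  LinearMap.det (ContinuousLinearMap.id ℝ E + (ContinuousLinearMap.adjoint M).comp M).toLinearMap

noncomputable def dens {n : ℕ} (U : En n → En n) (y : En n) : ℝ :=
  (lam y) ^ n * Real.sqrt (gram (Mop U y))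

noncomputable def vol' {n : ℕ} (U : En n → En n) : ENNReal :=
  ∫⁻ y, ENNReal.ofReal (dens U y)

/-- the core statement in `ℝ^(2m)` -/
def Core (m : ℕ) : Prop :=
  ∀ U : En (2 * m) → En (2 * m), ContDiff ℝ ((⊤ : ℕ∞) : WithTop ℕ∞) U → (∀ y, ‖U y‖ = 1) →
    ∀ u0 : En (2 * m), ‖u0‖ = 1 →
      vol' (fun _ => u0) ≤ vol' U ∧ (vol' U ≤ vol' (fun _ => u0) → ∀ y, U y = U 0)

/-- `z = ι y - p` -/
noncomputable def zv {n : ℕ} (p : En (n + 1)) (ι : En n →ₗᵢ[ℝ] En (n + 1)) (y : En n) : En (n + 1) :=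
  ι y - p

/-- reflection in `z` -/
noncomputable def Rf {n : ℕ} (z : En (n + 1)) : En (n + 1) →L[ℝ] En (n + 1) :=
  ContinuousLinearMap.id ℝ (En (n + 1)) - (2 / ‖z‖ ^ 2) • (innerSL ℝ z).smulRight z

/-- inverse stereographic projection from `p` -/
noncomputable def sig {n : ℕ} (p : En (n + 1)) (ι : En n →ₗᵢ[ℝ] En (n + 1)) (y : En n) : En (n + 1) :=
  (1 + ‖y‖ ^ 2)⁻¹ • ((‖y‖ ^ 2 - 1) • p + (2 : ℝ) • ι y)

/-- orthogonal projection onto the tangent space at `x` -/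
noncomputable def Pj {n : ℕ} (x : En (n + 1)) : En (n + 1) →L[ℝ] En (n + 1) :=
  ContinuousLinearMap.id ℝ (En (n + 1)) - (innerSL ℝ x).smulRight x

/-- covariant derivative -/
noncomputable def Dc {n : ℕ} (W : En (n + 1) → En (n + 1)) (x : En (n + 1)) :
    En (n + 1) →L[ℝ] En (n + 1) :=
  (Pj x).comp ((fderiv ℝ W x).comp (Pj x))

/-- volume of a field -/
noncomputable def volS {n : ℕ} (W : En (n + 1) → En (n + 1)) : ENNReal :=
  ∫⁻ x : Metric.sphere (0 : En (n + 1)) 1, ENNReal.ofReal (Real.sqrt (gram (Dc W x.1)))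
    ∂(Measure.toSphere (volume : Measure (En (n + 1))))

/-- admissible fields -/
def Adm {n : ℕ} (p : En (n + 1)) (W : En (n + 1) → En (n + 1)) : Prop :=
  (∃ O : Set (En (n + 1)), IsOpen O ∧ Metric.sphere (0 : En (n + 1)) 1 \ {p} ⊆ O ∧
    ContDiffOn ℝ ((⊤ : ℕ∞) : WithTop ℕ∞) W O) ∧
  ∀ x ∈ Metric.sphere (0 : En (n + 1)) 1 \ {p}, ‖W x‖ = 1 ∧ inner ℝ (W x) x = 0

/-- the field read in stereographic coordinates -/
noncomputable def UW {n : ℕ} (p : En (n + 1)) (ι : En n →ₗᵢ[ℝ] En (n + 1))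
    (W : En (n + 1) → En (n + 1)) (y : En n) : En n :=
  ContinuousLinearMap.adjoint ι.toContinuousLinearMap (Rf (zv p ι y) (W (sig p ι y)))

/-- the inverse stereographic projection into the sphere -/
noncomputable def sigS {n : ℕ} (p : En (n + 1)) (ι : En n →ₗᵢ[ℝ] En (n + 1))
    (hs : ∀ y, sig p ι y ∈ Metric.sphere (0 : En (n + 1)) 1) (y : En n) :
    Metric.sphere (0 : En (n + 1)) 1 := ⟨sig p ι y, hs y⟩

end Pool.Agent.Helper734.PV
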