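import Mathlib
import Pool.Agent.Helper734.PV.Defs

set_option autoImplicit false

namespace Pool.Agent.Helper734.PV

open MeasureTheory Set Filter Topology Metric
open scoped ENNReal NNReal RealInnerProductSpace Pointwise




theorem jDer_sig_eq' {n : ℕ} (p : En (n + 1)) (ι : En n →ₗᵢ[ℝ] En (n + 1)) (y : En n) :
    sig p ι y = p + lam y • zv p ι y := by
  have hq : (1 + ‖y‖ ^ 2 : ℝ) ≠ 0 := by positivity
  unfold sig lam zv
  rw [smul_add, smul_smul, smul_smul, smul_sub]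
  have h1 : (1 + ‖y‖ ^ 2)⁻¹ * (‖y‖ ^ 2 - 1) = 1 - 2 / (1 + ‖y‖ ^ 2) := by
    field_simp; ring
  have h2 : (1 + ‖y‖ ^ 2)⁻¹ * 2 = 2 / (1 + ‖y‖ ^ 2) := by
    field_simp
  rw [h1, h2, sub_smul, one_smul]
  abel

theorem sig_contDiff {n : ℕ} (p : En (n + 1)) (ι : En n →ₗᵢ[ℝ] En (n + 1)) :
    ContDiff ℝ ((⊤ : ℕ∞) : WithTop ℕ∞) (sig p ι) := by
  have hq : ContDiff ℝ ((⊤ : ℕ∞) : WithTop ℕ∞) (fun y : En n => ‖y‖ ^ 2) := contDiff_norm_sq ℝ
  have h1 : ContDiff ℝ ((⊤ : ℕ∞) : WithTop ℕ∞) (fun y : En n => (1 + ‖y‖ ^ 2)⁻¹) :=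
    (contDiff_const.add hq).inv (fun y => by positivity)
  have h2 : ContDiff ℝ ((⊤ : ℕ∞) : WithTop ℕ∞) (fun y : En n => ι y) :=
    ι.toContinuousLinearMap.contDiff
  have h3 : ContDiff ℝ ((⊤ : ℕ∞) : WithTop ℕ∞) (fun y : En n => (‖y‖ ^ 2 - 1) • p + (2 : ℝ) • ι y) :=
    ((hq.sub contDiff_const).smul contDiff_const).add (h2.const_smul (2 : ℝ))
  exact h1.smul h3

theorem sig_deriv {n : ℕ} (p : En (n + 1)) (hp : ‖p‖ = 1) (ι : En n →ₗᵢ[ℝ] En (n + 1))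
    (hι : ∀ y, inner ℝ (ι y) p = 0) (y : En n) :
    HasFDerivAt (sig p ι) (lam y • (Rf (zv p ι y)).comp ι.toContinuousLinearMap) y := by
  have hq0 : (1 + ‖y‖ ^ 2 : ℝ) ≠ 0 := by positivity
  have hq : HasFDerivAt (fun y : En n => ‖y‖ ^ 2) (2 • (innerSL ℝ y)) y :=
    (hasStrictFDerivAt_norm_sq y).hasFDerivAt
  have h1 : HasFDerivAt (fun y : En n => 1 + ‖y‖ ^ 2) (2 • (innerSL ℝ y)) y := hq.const_add 1
  have hinv : HasFDerivAt (fun y : En n => (1 + ‖y‖ ^ 2)⁻¹)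
      ((-((1 + ‖y‖ ^ 2) ^ 2)⁻¹) • (2 • (innerSL ℝ y))) y := by
    have := (hasDerivAt_inv hq0).comp_hasFDerivAt y h1
    exact this
  have hlam : HasFDerivAt (lam : En n → ℝ) ((2 : ℝ) • ((-((1 + ‖y‖ ^ 2) ^ 2)⁻¹) • (2 • (innerSL ℝ y)))) y := by
    have h := hinv.const_mul (2 : ℝ)
    have he : (fun y : En n => (2 : ℝ) * (1 + ‖y‖ ^ 2)⁻¹) = lam := by
      funext z; unfold lam; rw [div_eq_mul_inv]
    rw [he] at h
    exact h
  have hz : HasFDerivAt (zv p ι) ι.toContinuousLinearMap y := by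
    have h := (ι.toContinuousLinearMap.hasFDerivAt (x := y)).sub_const p
    exact h
  have hs : HasFDerivAt (fun y => p + lam y • zv p ι y) (lam y • ι.toContinuousLinearMap +
      ((2 : ℝ) • ((-((1 + ‖y‖ ^ 2) ^ 2)⁻¹) • (2 • (innerSL ℝ y)))).smulRight (zv p ι y)) y :=
    (hlam.smul hz).const_add p
  have hfun : sig p ι = fun y => p + lam y • zv p ι y := by
    funext z; exact jDer_sig_eq' p ι z
  rw [hfun]
  refine hs.congr_fderiv ?_
  have hip : ∀ ξ : En n, inner ℝ p (ι ξ) = 0 := fun ξ => by rw [real_inner_comm]; exact hι ξ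
  have hnz : ‖zv p ι y‖ ^ 2 = 1 + ‖y‖ ^ 2 := by
    unfold zv
    rw [norm_sub_sq_real, hι y, hp, ι.norm_map]; ring
  ext1 ξ
  have hin : inner ℝ (zv p ι y) (ι ξ) = inner ℝ y ξ := by
    unfold zv
    rw [inner_sub_left, hip ξ, sub_zero, ι.inner_map_map]
  simp only [add_apply, smul_apply, ContinuousLinearMap.smulRight_apply,
    ContinuousLinearMap.comp_apply, Rf, sub_apply, ContinuousLinearMap.id_apply,
    innerSL_apply_apply, LinearIsometry.coe_toContinuousLinearMap, hnz, hin, smul_eq_mul, nsmul_eq_mul]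
  rw [smul_sub, sub_eq_add_neg (lam y • ι ξ)]
  congr 1
  rw [smul_smul, smul_smul, ← neg_smul]
  congr 1
  unfold lam
  field_simp
  ring

end Pool.Agent.Helper734.PV
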