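import Mathlib
import Pool.Agent.Helper734.PV.Defs

set_option autoImplicit false

namespace Pool.Agent.Helper734.PV

open MeasureTheory Set Filter Topology Metric
open scoped ENNReal NNReal RealInnerProductSpace Pointwise




theorem exists_iota {n : ℕ} (p : En (n + 1)) (hp : ‖p‖ = 1) :
    ∃ ι : En n →ₗᵢ[ℝ] En (n + 1), (∀ y, inner ℝ (ι y) p = 0) ∧
      ∀ w : En (n + 1), inner ℝ w p = 0 → ∃ y, ι y = w := by
  have hp0 : p ≠ 0 := by
    intro h
    rw [h, norm_zero] at hp
    exact zero_ne_one hp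
  have : Fact (Module.finrank ℝ (En (n + 1)) = n + 1) := ⟨by simp⟩
  have hfin : Module.finrank ℝ ((Submodule.span ℝ {p} : Submodule ℝ (En (n + 1)))ᗮ) = n :=
    Submodule.finrank_orthogonal_span_singleton hp0
  obtain ⟨K, hK⟩ : ∃ K : Submodule ℝ (En (n + 1)), K = (Submodule.span ℝ {p})ᗮ := ⟨_, rfl⟩
  rw [← hK] at hfin
  let b : OrthonormalBasis (Fin n) ℝ K := (stdOrthonormalBasis ℝ K).reindex (finCongr hfin)
  refine ⟨K.subtypeₗᵢ.comp b.repr.symm.toLinearIsometry, ?_, ?_⟩
  · intro y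
    have h1 : ((b.repr.symm y : K) : En (n + 1)) ∈ (Submodule.span ℝ {p})ᗮ := by
      rw [← hK]; exact (b.repr.symm y).2
    exact Submodule.mem_orthogonal_singleton_iff_inner_left.mp h1
  · intro w hw
    have h1 : w ∈ K := by
      rw [hK]
      exact Submodule.mem_orthogonal_singleton_iff_inner_left.mpr hw
    refine ⟨b.repr ⟨w, h1⟩, ?_⟩
    show ((b.repr.symm (b.repr ⟨w, h1⟩) : K) : En (n + 1)) = w
    rw [LinearIsometryEquiv.symm_apply_apply]

theorem iota_adj {n : ℕ} (ι : En n →ₗᵢ[ℝ] En (n + 1)) (y : En n) :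
    ContinuousLinearMap.adjoint ι.toContinuousLinearMap (ι y) = y := by
  apply ext_inner_left ℝ
  intro v
  rw [ContinuousLinearMap.adjoint_inner_right]
  exact ι.inner_map_map v y

theorem iota_adj' {n : ℕ} (p : En (n + 1)) (hp : ‖p‖ = 1) (ι : En n →ₗᵢ[ℝ] En (n + 1))
    (hι : ∀ y, inner ℝ (ι y) p = 0) (hs : ∀ w : En (n + 1), inner ℝ w p = 0 → ∃ y, ι y = w)
    (w : En (n + 1)) :
    ι (ContinuousLinearMap.adjoint ι.toContinuousLinearMap w) = Pj p w := by
  have h0 : ContinuousLinearMap.adjoint ι.toContinuousLinearMap p = 0 := by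
    apply ext_inner_left ℝ
    intro v
    rw [ContinuousLinearMap.adjoint_inner_right, inner_zero_right]
    exact hι v
  have hPj : Pj p w = w - (inner ℝ p w : ℝ) • p := by
    simp [Pj]
  have h1 : inner ℝ (w - (inner ℝ p w : ℝ) • p) p = 0 := by
    rw [inner_sub_left, real_inner_smul_left, real_inner_self_eq_norm_sq, hp, real_inner_comm]
    ring
  obtain ⟨y, hy⟩ := hs _ h1
  have h2 : w = ι y + (inner ℝ p w : ℝ) • p := by rw [hy]; abel
  rw [hPj, ← hy]
  congr 1
  conv_lhs => rw [h2]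
  rw [map_add, map_smul, h0, smul_zero, add_zero, iota_adj]

end Pool.Agent.Helper734.PV
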