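import Mathlib
import Pool.Agent.Helper734.PV.Defs

set_option autoImplicit false

namespace Pool.Agent.Helper734.PV

open MeasureTheory Set Filter Topology Metric
open scoped ENNReal NNReal RealInnerProductSpace Pointwise




theorem jRf_Rf_apply' {n : ℕ} (z a : En (n + 1)) :
    Rf z a = a - (2 / ‖z‖ ^ 2) • ((inner ℝ z a : ℝ) • z) := rfl

theorem Rf_inner {n : ℕ} (z a b : En (n + 1)) (hz : z ≠ 0) :
    inner ℝ (Rf z a) (Rf z b) = inner ℝ a b := by
  have hz' : ‖z‖ ^ 2 ≠ 0 := by
    have := norm_ne_zero_iff.mpr hz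
    positivity
  rw [jRf_Rf_apply', jRf_Rf_apply']
  simp only [inner_sub_left, inner_sub_right, real_inner_smul_left, real_inner_smul_right,
    real_inner_self_eq_norm_sq]
  rw [real_inner_comm z a]
  generalize ‖z‖ ^ 2 = N at *
  generalize (inner ℝ z a : ℝ) = A
  generalize (inner ℝ z b : ℝ) = B
  field_simp
  ring

theorem Rf_symm {n : ℕ} (z a b : En (n + 1)) :
    inner ℝ (Rf z a) b = inner ℝ a (Rf z b) := by
  rw [jRf_Rf_apply', jRf_Rf_apply']
  simp only [inner_sub_left, inner_sub_right, real_inner_smul_left, real_inner_smul_right]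
  rw [real_inner_comm z a]
  ring

theorem Rf_Rf {n : ℕ} (z a : En (n + 1)) (hz : z ≠ 0) : Rf z (Rf z a) = a := by
  apply ext_inner_right ℝ
  intro b
  rw [Rf_symm, Rf_inner z a b hz]

theorem Rf_adj {n : ℕ} (z : En (n + 1)) : ContinuousLinearMap.adjoint (Rf z) = Rf z :=
  ((ContinuousLinearMap.eq_adjoint_iff _ _).mpr fun a b => Rf_symm z a b).symm

theorem Rf_det {n : ℕ} (z : En (n + 1)) (hz : z ≠ 0) :
    |LinearMap.det (Rf z).toLinearMap| = 1 := by
  have h1 : (Rf z).toLinearMap ∘ₗ (Rf z).toLinearMap = LinearMap.id := by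
    ext1 a
    exact Rf_Rf z a hz
  have h2 := congrArg LinearMap.det h1
  rw [LinearMap.det_comp, LinearMap.det_id] at h2
  have h3 : |LinearMap.det (Rf z).toLinearMap| * |LinearMap.det (Rf z).toLinearMap| = 1 := by
    rw [← abs_mul, h2, abs_one]
  nlinarith [abs_nonneg (LinearMap.det (Rf z).toLinearMap)]

end Pool.Agent.Helper734.PV
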