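import Mathlib
import Pool.Agent.Helper734.PV.Defs
import Pool.Agent.Helper734.PV.JRf

set_option autoImplicit false

namespace Pool.Agent.Helper734.PV

open MeasureTheory Set Filter Topology Metric
open scoped ENNReal NNReal RealInnerProductSpace Pointwise




theorem zv_norm {n : ℕ} (p : En (n + 1)) (hp : ‖p‖ = 1) (ι : En n →ₗᵢ[ℝ] En (n + 1))
    (hι : ∀ y, inner ℝ (ι y) p = 0) (y : En n) : ‖zv p ι y‖ ^ 2 = 1 + ‖y‖ ^ 2 := by
  rw [zv, norm_sub_sq_real, hι, ι.norm_map, hp]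
  ring

theorem zv_ne {n : ℕ} (p : En (n + 1)) (hp : ‖p‖ = 1) (ι : En n →ₗᵢ[ℝ] En (n + 1))
    (hι : ∀ y, inner ℝ (ι y) p = 0) (y : En n) : zv p ι y ≠ 0 := by
  intro h
  have h1 := zv_norm p hp ι hι y
  rw [h, norm_zero] at h1
  have := sq_nonneg ‖y‖
  norm_num at h1
  linarith

theorem jSig_jSig_zp {n : ℕ} (p : En (n + 1)) (hp : ‖p‖ = 1) (ι : En n →ₗᵢ[ℝ] En (n + 1))
    (hι : ∀ y, inner ℝ (ι y) p = 0) (y : En n) : inner ℝ (zv p ι y) p = -1 := by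
  rw [zv, inner_sub_left, hι, real_inner_self_eq_norm_sq, hp]
  norm_num

theorem sig_sub {n : ℕ} (p : En (n + 1)) (hp : ‖p‖ = 1) (ι : En n →ₗᵢ[ℝ] En (n + 1))
    (hι : ∀ y, inner ℝ (ι y) p = 0) (y : En n) : sig p ι y - p = lam y • zv p ι y := by
  have hq : (1 + ‖y‖ ^ 2) ≠ 0 := by positivity
  rw [sig, lam, zv, smul_add, smul_smul, smul_smul, smul_sub]
  have e1 : (1 + ‖y‖ ^ 2)⁻¹ * (‖y‖ ^ 2 - 1) = 1 - 2 / (1 + ‖y‖ ^ 2) := by
    field_simp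
    ring
  have e2 : (1 + ‖y‖ ^ 2)⁻¹ * 2 = 2 / (1 + ‖y‖ ^ 2) := by rw [div_eq_inv_mul]
  rw [e1, e2]
  module

theorem sig_eq {n : ℕ} (p : En (n + 1)) (hp : ‖p‖ = 1) (ι : En n →ₗᵢ[ℝ] En (n + 1))
    (hι : ∀ y, inner ℝ (ι y) p = 0) (y : En n) : sig p ι y = Rf (zv p ι y) p := by
  have h1 := sig_sub p hp ι hι y
  have h2 : Rf (zv p ι y) p = p + lam y • zv p ι y := by
    have h3 : Rf (zv p ι y) p = p - (2 / ‖zv p ι y‖ ^ 2) • (inner ℝ (zv p ι y) p • zv p ι y) := rfl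
    rw [h3, jSig_jSig_zp p hp ι hι y, zv_norm p hp ι hι y, lam]
    module
  rw [h2, ← h1]
  abel

theorem sig_norm {n : ℕ} (p : En (n + 1)) (hp : ‖p‖ = 1) (ι : En n →ₗᵢ[ℝ] En (n + 1))
    (hι : ∀ y, inner ℝ (ι y) p = 0) (y : En n) : ‖sig p ι y‖ = 1 := by
  have h1 := Rf_inner (zv p ι y) p p (zv_ne p hp ι hι y)
  rw [← sig_eq p hp ι hι y, real_inner_self_eq_norm_sq, real_inner_self_eq_norm_sq, hp] at h1
  have h2 := norm_nonneg (sig p ι y)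
  nlinarith

theorem sig_ne {n : ℕ} (p : En (n + 1)) (hp : ‖p‖ = 1) (ι : En n →ₗᵢ[ℝ] En (n + 1))
    (hι : ∀ y, inner ℝ (ι y) p = 0) (y : En n) : sig p ι y ≠ p := by
  intro h
  have h1 := sig_sub p hp ι hι y
  rw [h, sub_self] at h1
  have h2 : lam y ≠ 0 := by unfold lam; positivity
  rcases smul_eq_zero.1 h1.symm with h3 | h3
  · exact h2 h3
  · exact zv_ne p hp ι hι y h3

theorem sig_mem {n : ℕ} (p : En (n + 1)) (hp : ‖p‖ = 1) (ι : En n →ₗᵢ[ℝ] En (n + 1))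
    (hι : ∀ y, inner ℝ (ι y) p = 0) (y : En n) :
    sig p ι y ∈ Metric.sphere (0 : En (n + 1)) 1 \ {p} :=
  ⟨mem_sphere_zero_iff_norm.2 (sig_norm p hp ι hι y), sig_ne p hp ι hι y⟩

theorem inner_p_sig {n : ℕ} (p : En (n + 1)) (hp : ‖p‖ = 1) (ι : En n →ₗᵢ[ℝ] En (n + 1))
    (hι : ∀ y, inner ℝ (ι y) p = 0) (y : En n) : 1 - inner ℝ p (sig p ι y) = lam y := by
  have h1 : sig p ι y = p + lam y • zv p ι y := by
    rw [← sig_sub p hp ι hι y]; abel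
  rw [h1, inner_add_right, inner_smul_right, real_inner_comm, real_inner_self_eq_norm_sq, hp,
    real_inner_comm, jSig_jSig_zp p hp ι hι y]
  ring

end Pool.Agent.Helper734.PV
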