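import Mathlib
import Pool.Agent.Helper734.PV.Defs
import Pool.Agent.Helper734.PV.JDer
import Pool.Agent.Helper734.PV.JIota
import Pool.Agent.Helper734.PV.JSig

set_option autoImplicit false

namespace Pool.Agent.Helper734.PV

open MeasureTheory Set Filter Topology Metric
open scoped ENNReal NNReal RealInnerProductSpace Pointwise




/-- the map `r p + ι y ↦ r σ(y)` -/
theorem cone_deriv {n : ℕ} (p : En (n + 1)) (hp : ‖p‖ = 1) (ι : En n →ₗᵢ[ℝ] En (n + 1))
    (hι : ∀ y, inner ℝ (ι y) p = 0) (hs : ∀ w : En (n + 1), inner ℝ w p = 0 → ∃ y, ι y = w)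
    (r : ℝ) (y : En n) :
    HasFDerivAt (fun w : En (n + 1) => inner ℝ p w •
        sig p ι (ContinuousLinearMap.adjoint ι.toContinuousLinearMap w))
      ((Rf (zv p ι y)).comp ((r * lam y) • ContinuousLinearMap.id ℝ (En (n + 1))
        + (1 - r * lam y) • (innerSL ℝ p).smulRight p)) (r • p + ι y) := by
  set A := ContinuousLinearMap.adjoint ι.toContinuousLinearMap with hA
  have hpp : inner ℝ p p = (1 : ℝ) := by
    rw [real_inner_self_eq_norm_sq, hp, one_pow]
  have hAp : A p = 0 := by
    have h1 : ι (A p) = 0 := by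
      rw [hA, iota_adj' p hp ι hι hs]
      simp [Pj, hp]
    exact ι.injective (by rw [h1, map_zero])
  have hAw : A (r • p + ι y) = y := by
    rw [map_add, map_smul, hAp, smul_zero, zero_add]
    exact iota_adj ι y
  have hin : inner ℝ p (r • p + ι y) = r := by
    rw [inner_add_right, inner_smul_right, hpp, real_inner_comm, hι]
    ring
  have h1 : HasFDerivAt (fun w : En (n + 1) => inner ℝ p w) (innerSL ℝ p) (r • p + ι y) :=
    (innerSL ℝ p).hasFDerivAt
  have h2 : HasFDerivAt (sig p ι) (lam y • (Rf (zv p ι y)).comp ι.toContinuousLinearMap)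
      (A (r • p + ι y)) := by
    rw [hAw]
    exact sig_deriv p hp ι hι y
  have h3 : HasFDerivAt (fun w => sig p ι (A w)) _ (r • p + ι y) :=
    h2.comp (r • p + ι y) A.hasFDerivAt
  have h4 := h1.smul h3
  refine h4.congr_fderiv ?_
  refine ContinuousLinearMap.ext fun w => ?_
  have h5 : ι (A w) = w - inner ℝ p w • p := by
    rw [hA, iota_adj' p hp ι hι hs]
    simp [Pj]
  have h6 : sig p ι y = Rf (zv p ι y) p := sig_eq p hp ι hι y
  have h7 : (ι.toContinuousLinearMap) (A w) = w - inner ℝ p w • p := h5
  simp only [ContinuousLinearMap.add_apply, ContinuousLinearMap.smul_apply,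
    ContinuousLinearMap.comp_apply, ContinuousLinearMap.smulRight_apply, hAw, hin, h7, h6,
    ContinuousLinearMap.id_apply, innerSL_apply_apply, map_add, map_sub, map_smul]
  module

theorem cone_det {n : ℕ} (p : En (n + 1)) (hp : ‖p‖ = 1) (c : ℝ) :
    LinearMap.det ((c • ContinuousLinearMap.id ℝ (En (n + 1))
        + (1 - c) • (innerSL ℝ p).smulRight p).toLinearMap) = c ^ n := by
  have hpp : inner ℝ p p = (1 : ℝ) := by
    rw [real_inner_self_eq_norm_sq, hp, one_pow]
  have hcont : Continuous fun c : ℝ => LinearMap.det ((c • ContinuousLinearMap.id ℝ (En (n + 1))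
        + (1 - c) • (innerSL ℝ p).smulRight p).toLinearMap) := by
    have h1 : Continuous fun c : ℝ => (c • ContinuousLinearMap.id ℝ (En (n + 1))
        + (1 - c) • (innerSL ℝ p).smulRight p) := by fun_prop
    exact (ContinuousLinearMap.continuous_det (E := En (n + 1)) (𝕜 := ℝ)).comp h1
  have hcont2 : Continuous fun c : ℝ => c ^ n := continuous_pow n
  have key : Set.EqOn (fun c : ℝ => LinearMap.det ((c • ContinuousLinearMap.id ℝ (En (n + 1))
        + (1 - c) • (innerSL ℝ p).smulRight p).toLinearMap)) (fun c : ℝ => c ^ n) {0}ᶜ := by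
    intro c hc
    have hc0 : c ≠ 0 := hc
    have h1 : (c • ContinuousLinearMap.id ℝ (En (n + 1))
        + (1 - c) • (innerSL ℝ p).smulRight p).toLinearMap =
        c • LinearMap.transvection (((1 - c) / c) • (innerSL ℝ p).toLinearMap) p := by
      refine LinearMap.ext fun w => ?_
      simp only [LinearMap.smul_apply, LinearMap.transvection.apply,
        ContinuousLinearMap.coe_coe, ContinuousLinearMap.add_apply, ContinuousLinearMap.smul_apply,
        ContinuousLinearMap.id_apply, ContinuousLinearMap.smulRight_apply, innerSL_apply_apply,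
        smul_eq_mul, smul_add, smul_smul]
      congr 2
      field_simp
    show LinearMap.det _ = c ^ n
    rw [h1, LinearMap.det_smul, LinearMap.transvection.det, finrank_euclideanSpace_fin]
    have h2 : (((1 - c) / c) • (innerSL ℝ p).toLinearMap) p = (1 - c) / c := by
      simp only [LinearMap.smul_apply, ContinuousLinearMap.coe_coe, innerSL_apply_apply, hpp,
        smul_eq_mul, mul_one]
    rw [h2, pow_succ]
    field_simp
    ring
  have h := Continuous.ext_on (dense_compl_singleton (0 : ℝ)) hcont hcont2 key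
  exact congrFun h c

end Pool.Agent.Helper734.PV
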