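import Mathlib
import Pool.Agent.Helper734.PV.Defs
import Pool.Agent.Helper734.PV.JIota

set_option autoImplicit false

namespace Pool.Agent.Helper734.PV

open MeasureTheory Set Filter Topology Metric
open scoped ENNReal NNReal RealInnerProductSpace Pointwise




theorem jConeI_cone_int_aux_lam {n : ℕ} : Measurable (fun y : En n => lam y) := by
  unfold lam
  fun_prop

theorem jConeI_cone_int_aux_pow (n : ℕ) :
    ∫⁻ r in Set.Ioo (0 : ℝ) 1, ENNReal.ofReal (r ^ n) = ENNReal.ofReal ((n + 1 : ℝ)⁻¹) := by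
  have hint : Integrable (fun r : ℝ => r ^ n) (volume.restrict (Set.Ioo (0:ℝ) 1)) := by
    have h1 : IntegrableOn (fun r : ℝ => r ^ n) (Set.Icc (0:ℝ) 1) :=
      (continuous_pow n).continuousOn.integrableOn_compact isCompact_Icc
    exact h1.mono_set Set.Ioo_subset_Icc_self
  have hnn : 0 ≤ᵐ[volume.restrict (Set.Ioo (0:ℝ) 1)] (fun r : ℝ => r ^ n) := by
    filter_upwards [ae_restrict_mem measurableSet_Ioo] with r hr
    exact pow_nonneg hr.1.le n
  rw [← ofReal_integral_eq_lintegral_ofReal hint hnn]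
  congr 1
  rw [← integral_Ioc_eq_integral_Ioo, ← intervalIntegral.integral_of_le zero_le_one, integral_pow]
  simp

theorem cone_int {n : ℕ} (T : Set (En n)) (hT : MeasurableSet T) :
    ∫⁻ q in (Set.Ioo (0 : ℝ) 1 ×ˢ T), ENNReal.ofReal ((q.1 * lam q.2) ^ n)
        ∂((volume : Measure ℝ).prod (volume : Measure (En n)))
      = ENNReal.ofReal ((n + 1 : ℝ)⁻¹) * ∫⁻ y in T, ENNReal.ofReal (lam y ^ n) := by
  have h1 : ∫⁻ q in (Set.Ioo (0 : ℝ) 1 ×ˢ T), ENNReal.ofReal ((q.1 * lam q.2) ^ n)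
        ∂((volume : Measure ℝ).prod (volume : Measure (En n))) =
      ∫⁻ q in (Set.Ioo (0 : ℝ) 1 ×ˢ T), ENNReal.ofReal (q.1 ^ n) * ENNReal.ofReal (lam q.2 ^ n)
        ∂((volume : Measure ℝ).prod (volume : Measure (En n))) := by
    apply setLIntegral_congr_fun (measurableSet_Ioo.prod hT)
    intro q hq
    show ENNReal.ofReal ((q.1 * lam q.2) ^ n) = _
    rw [mul_pow, ENNReal.ofReal_mul (pow_nonneg hq.1.1.le n)]
  rw [h1, ← Measure.prod_restrict,
    lintegral_prod_mul (f := fun r : ℝ => ENNReal.ofReal (r ^ n))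
      (g := fun y : En n => ENNReal.ofReal (lam y ^ n)), jConeI_cone_int_aux_pow]
  · exact (ENNReal.measurable_ofReal.comp (measurable_id.pow_const n)).aemeasurable
  · exact (ENNReal.measurable_ofReal.comp (jConeI_cone_int_aux_lam.pow_const n)).aemeasurable

theorem cone_set {n : ℕ} (p : En (n + 1)) (hp : ‖p‖ = 1) (ι : En n →ₗᵢ[ℝ] En (n + 1))
    (hι : ∀ y, inner ℝ (ι y) p = 0) (T : Set (En n)) :
    (fun w : En (n + 1) => inner ℝ p w •
        sig p ι (ContinuousLinearMap.adjoint ι.toContinuousLinearMap w)) ''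
          ((fun q : ℝ × En n => q.1 • p + ι q.2) '' (Set.Ioo (0 : ℝ) 1 ×ˢ T))
      = Set.Ioo (0 : ℝ) 1 • (sig p ι '' T) := by
  have hadj : ContinuousLinearMap.adjoint ι.toContinuousLinearMap p = 0 := by
    refine ext_inner_right ℝ fun v => ?_
    rw [ContinuousLinearMap.adjoint_inner_left, inner_zero_left]
    have h1 := hι v
    rw [real_inner_comm] at h1
    exact h1
  have h1 : ∀ (r : ℝ) (y : En n), inner ℝ p (r • p + ι y) = r := by
    intro r y
    rw [inner_add_right, inner_smul_right, real_inner_self_eq_norm_sq, hp]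
    have h2 := hι y
    rw [real_inner_comm] at h2
    rw [h2]; ring
  have h2 : ∀ (r : ℝ) (y : En n), ContinuousLinearMap.adjoint ι.toContinuousLinearMap
      (r • p + ι y) = y := by
    intro r y
    rw [map_add, map_smul, hadj, iota_adj, smul_zero, zero_add]
  ext x
  simp only [Set.mem_smul, Set.mem_image]
  constructor
  · rintro ⟨_, ⟨⟨r, y⟩, hq, rfl⟩, rfl⟩
    refine ⟨r, hq.1, sig p ι y, ⟨y, hq.2, rfl⟩, ?_⟩
    simp only [h1, h2]
  · rintro ⟨r, hr, _, ⟨y, hy, rfl⟩, rfl⟩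
    refine ⟨_, ⟨(r, y), ⟨hr, hy⟩, rfl⟩, ?_⟩
    simp only [h1, h2]

end Pool.Agent.Helper734.PV
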