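import Mathlib
import Pool.Agent.Helper734.PV.Defs

set_option autoImplicit false

namespace Pool.Agent.Helper734.PV

open MeasureTheory Set Filter Topology Metric
open scoped ENNReal NNReal RealInnerProductSpace Pointwise




/-- the isometry `(r, y) ↦ r p + ι y` -/
noncomputable def jProd_mp_prod_iso {n : ℕ} (p : En (n + 1)) (hp : ‖p‖ = 1) (ι : En n →ₗᵢ[ℝ] En (n + 1))
    (hι : ∀ y, inner ℝ (ι y) p = 0) : WithLp 2 (ℝ × En n) →ₗᵢ[ℝ] En (n + 1) where
  toFun q := q.fst • p + ι q.snd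
  map_add' a b := by
    rw [WithLp.add_fst, WithLp.add_snd, add_smul, map_add]
    abel
  map_smul' c a := by
    rw [WithLp.smul_fst, WithLp.smul_snd, map_smul, smul_add, smul_eq_mul, mul_smul]
    rfl
  norm_map' q := by
    show ‖q.fst • p + ι q.snd‖ = ‖q‖
    have h1 : inner ℝ (q.fst • p) (ι q.snd) = 0 := by
      rw [real_inner_smul_left, real_inner_comm, hι, mul_zero]
    have h2 := norm_add_sq_eq_norm_sq_add_norm_sq_real h1
    have h3 := WithLp.prod_norm_sq_eq_of_L2 q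
    rw [norm_smul, hp, mul_one, ι.norm_map] at h2
    have h4 : ‖q.fst • p + ι q.snd‖ ^ 2 = ‖q‖ ^ 2 := by
      rw [h3]
      nlinarith
    exact (sq_eq_sq₀ (norm_nonneg _) (norm_nonneg _)).1 h4

theorem jProd_mp_prod_surj {n : ℕ} (p : En (n + 1)) (hp : ‖p‖ = 1) (ι : En n →ₗᵢ[ℝ] En (n + 1))
    (hι : ∀ y, inner ℝ (ι y) p = 0) (hs : ∀ w : En (n + 1), inner ℝ w p = 0 → ∃ y, ι y = w) :
    Function.Surjective (jProd_mp_prod_iso p hp ι hι) := by
  intro x
  obtain ⟨y, hy⟩ := hs (x - (inner ℝ x p : ℝ) • p) (by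
    rw [inner_sub_left, real_inner_smul_left, real_inner_self_eq_norm_sq, hp]
    ring)
  refine ⟨WithLp.toLp 2 ((inner ℝ x p : ℝ), y), ?_⟩
  show (inner ℝ x p : ℝ) • p + ι y = x
  rw [hy]
  abel

/-- product decomposition of Lebesgue measure -/
theorem mp_prod {n : ℕ} (p : En (n + 1)) (hp : ‖p‖ = 1) (ι : En n →ₗᵢ[ℝ] En (n + 1))
    (hι : ∀ y, inner ℝ (ι y) p = 0) (hs : ∀ w : En (n + 1), inner ℝ w p = 0 → ∃ y, ι y = w) :
    MeasurePreserving (fun q : ℝ × En n => q.1 • p + ι q.2)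
      ((volume : Measure ℝ).prod (volume : Measure (En n))) (volume : Measure (En (n + 1))) ∧
    MeasurableEmbedding (fun q : ℝ × En n => q.1 • p + ι q.2) := by
  have e : (fun q : ℝ × En n => q.1 • p + ι q.2) =
      (LinearIsometryEquiv.ofSurjective (jProd_mp_prod_iso p hp ι hι) (jProd_mp_prod_surj p hp ι hι hs)) ∘
        (WithLp.toLp 2 : ℝ × En n → WithLp 2 (ℝ × En n)) := by
    funext q
    rfl
  rw [e]
  constructor
  · exact (LinearIsometryEquiv.measurePreserving _).comp (WithLp.volume_preserving_toLp ℝ (En n))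
  · exact (LinearIsometryEquiv.ofSurjective (jProd_mp_prod_iso p hp ι hι)
      (jProd_mp_prod_surj p hp ι hι hs)).toHomeomorph.measurableEmbedding.comp
      (MeasurableEquiv.toLp 2 (ℝ × En n)).measurableEmbedding

end Pool.Agent.Helper734.PV
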