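import Mathlib
import Pool.Agent.Helper734.PV.Defs
import Pool.Agent.Helper734.PV.JIota
import Pool.Agent.Helper734.PV.JSig

set_option autoImplicit false

namespace Pool.Agent.Helper734.PV

open MeasureTheory Set Filter Topology Metric
open scoped ENNReal NNReal RealInnerProductSpace Pointwise




theorem sig_surj {n : ℕ} (p : En (n + 1)) (hp : ‖p‖ = 1) (ι : En n →ₗᵢ[ℝ] En (n + 1))
    (hι : ∀ y, inner ℝ (ι y) p = 0) (hs : ∀ w : En (n + 1), inner ℝ w p = 0 → ∃ y, ι y = w)
    (x : En (n + 1)) (hx : x ∈ Metric.sphere (0 : En (n + 1)) 1 \ {p}) :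
    ∃ y, sig p ι y = x := by
  have hx1 : ‖x‖ = 1 := mem_sphere_zero_iff_norm.mp hx.1
  have hxp : x ≠ p := hx.2
  set k : ℝ := inner ℝ p x with hk
  have hk1 : k ≤ 1 := by
    have := real_inner_le_norm p x
    rw [hp, hx1, one_mul] at this
    exact this
  have hk2 : k ≠ 1 := fun h => hxp ((inner_eq_one_iff_of_norm_eq_one hp hx1).mp h).symm
  have hk3 : 0 < 1 - k := by
    have := lt_of_le_of_ne hk1 hk2
    linarith
  have hpp : inner ℝ p p = (1 : ℝ) := by rw [real_inner_self_eq_norm_sq, hp]; norm_num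
  have hxx : inner ℝ x x = (1 : ℝ) := by rw [real_inner_self_eq_norm_sq, hx1]; norm_num
  have hxp' : inner ℝ x p = k := by rw [real_inner_comm]
  obtain ⟨y, hy⟩ := hs ((1 - k)⁻¹ • (x - k • p)) (by
    rw [inner_smul_left, inner_sub_left, inner_smul_left, hxp', hpp]
    simp)
  have hn : ‖y‖ ^ 2 = (1 + k) / (1 - k) := by
    rw [← ι.norm_map y, hy, ← real_inner_self_eq_norm_sq, inner_smul_left, inner_smul_right,
      inner_sub_left, inner_sub_right, inner_sub_right, inner_smul_left, inner_smul_right,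
      inner_smul_right, inner_smul_left, hxp', hpp, hxx, ← hk]
    simp only [conj_trivial]
    field_simp
    ring
  refine ⟨y, ?_⟩
  unfold sig
  have h1 : (1 + ‖y‖ ^ 2)⁻¹ = (1 - k) / 2 := by
    rw [hn]
    have : (1 : ℝ) + (1 + k) / (1 - k) = 2 / (1 - k) := by
      field_simp
      ring
    rw [this, inv_div]
  have h2 : ‖y‖ ^ 2 - 1 = 2 * k / (1 - k) := by
    rw [hn]
    field_simp
    ring
  rw [h1, h2, hy, smul_add, smul_smul, smul_smul, smul_smul]
  have h3 : (1 - k) / 2 * (2 * k / (1 - k)) = k := by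
    field_simp
  have h4 : (1 - k) / 2 * 2 * (1 - k)⁻¹ = 1 := by
    field_simp
  rw [h3, h4, one_smul]
  abel

theorem sig_inj {n : ℕ} (p : En (n + 1)) (hp : ‖p‖ = 1) (ι : En n →ₗᵢ[ℝ] En (n + 1))
    (hι : ∀ y, inner ℝ (ι y) p = 0) : Function.Injective (sig p ι) := by
  intro y y' h
  have h1 : lam y = lam y' := by
    rw [← inner_p_sig p hp ι hι y, ← inner_p_sig p hp ι hι y', h]
  have h2 := sig_sub p hp ι hι y
  rw [h, sig_sub p hp ι hι y', h1] at h2
  have h3 : lam y' ≠ 0 := by
    unfold lam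
    positivity
  have h4 := smul_right_injective _ h3 h2
  unfold zv at h4
  exact ι.injective (sub_left_injective h4).symm

end Pool.Agent.Helper734.PV
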