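import Mathlib
import Pool.Agent.Helper734.PV.Defs
import Pool.Agent.Helper734.PV.JCone
import Pool.Agent.Helper734.PV.JIota
import Pool.Agent.Helper734.PV.JProd
import Pool.Agent.Helper734.PV.JRf
import Pool.Agent.Helper734.PV.JSig
import Pool.Agent.Helper734.PV.JSur

set_option autoImplicit false

namespace Pool.Agent.Helper734.PV

open MeasureTheory Set Filter Topology Metric
open scoped ENNReal NNReal RealInnerProductSpace Pointwise




/-- volume of a cone over a piece of the sphere -/
theorem cone_vol {n : ℕ} (p : En (n + 1)) (hp : ‖p‖ = 1) (ι : En n →ₗᵢ[ℝ] En (n + 1))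
    (hι : ∀ y, inner ℝ (ι y) p = 0) (hs : ∀ w : En (n + 1), inner ℝ w p = 0 → ∃ y, ι y = w)
    (T : Set (En n)) (hT : MeasurableSet T) :
    volume ((fun w : En (n + 1) => inner ℝ p w •
        sig p ι (ContinuousLinearMap.adjoint ι.toContinuousLinearMap w)) ''
          ((fun q : ℝ × En n => q.1 • p + ι q.2) '' (Set.Ioo (0 : ℝ) 1 ×ˢ T)))
      = ∫⁻ q in (Set.Ioo (0 : ℝ) 1 ×ˢ T), ENNReal.ofReal ((q.1 * lam q.2) ^ n)
        ∂((volume : Measure ℝ).prod (volume : Measure (En n))) := by
  obtain ⟨hmp, hme⟩ := mp_prod p hp ι hι hs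
  have hpι : ContinuousLinearMap.adjoint ι.toContinuousLinearMap p = 0 := by
    refine ext_inner_right ℝ fun y => ?_
    rw [ContinuousLinearMap.adjoint_inner_left, inner_zero_left]
    have h1 := hι y
    rw [real_inner_comm] at h1
    exact h1
  have hin : ∀ q : ℝ × En n, inner ℝ p (q.1 • p + ι q.2) = q.1 := by
    intro q
    rw [inner_add_right, inner_smul_right, real_inner_self_eq_norm_sq, hp]
    have h1 := hι q.2
    rw [real_inner_comm] at h1
    rw [h1]
    ring
  have had : ∀ q : ℝ × En n, ContinuousLinearMap.adjoint ι.toContinuousLinearMap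
      (q.1 • p + ι q.2) = q.2 := by
    intro q
    rw [map_add, map_smul, hpι, smul_zero, zero_add, iota_adj]
  set G : En (n + 1) → En (n + 1) := fun w => inner ℝ p w •
        sig p ι (ContinuousLinearMap.adjoint ι.toContinuousLinearMap w) with hG
  set e : ℝ × En n → En (n + 1) := fun q => q.1 • p + ι q.2 with he
  have hGe : ∀ q, G (e q) = q.1 • sig p ι q.2 := by
    intro q
    simp only [hG, he]
    rw [hin, had]
  set S : Set (En (n + 1)) := e '' (Set.Ioo (0 : ℝ) 1 ×ˢ T) with hS
  have hST : MeasurableSet (Set.Ioo (0 : ℝ) 1 ×ˢ T) := measurableSet_Ioo.prod hT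
  have hSm : MeasurableSet S := hme.measurableSet_image.mpr hST
  set f' : En (n + 1) → (En (n + 1) →L[ℝ] En (n + 1)) := fun w =>
    (Rf (zv p ι (ContinuousLinearMap.adjoint ι.toContinuousLinearMap w))).comp
      ((inner ℝ p w * lam (ContinuousLinearMap.adjoint ι.toContinuousLinearMap w)) •
        ContinuousLinearMap.id ℝ (En (n + 1))
        + (1 - inner ℝ p w * lam (ContinuousLinearMap.adjoint ι.toContinuousLinearMap w)) •
          (innerSL ℝ p).smulRight p) with hf'
  have hder : ∀ w ∈ S, HasFDerivWithinAt G (f' w) S w := by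
    rintro _ ⟨q, hq, rfl⟩
    have h1 := cone_deriv p hp ι hι hs q.1 q.2
    have h2 : f' (e q) = (Rf (zv p ι q.2)).comp ((q.1 * lam q.2) •
        ContinuousLinearMap.id ℝ (En (n + 1)) + (1 - q.1 * lam q.2) • (innerSL ℝ p).smulRight p) := by
      simp only [hf', he]
      rw [hin, had]
    rw [h2]
    exact h1.hasFDerivWithinAt
  have hinj : InjOn G S := by
    rintro _ ⟨q, hq, rfl⟩ _ ⟨q', hq', rfl⟩ h
    rw [hGe, hGe] at h
    have h1 := congrArg norm h
    rw [norm_smul, norm_smul, sig_norm p hp ι hι, sig_norm p hp ι hι, mul_one, mul_one,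
      Real.norm_of_nonneg hq.1.1.le, Real.norm_of_nonneg hq'.1.1.le] at h1
    rw [← h1] at h
    have h2 := smul_right_injective (En (n + 1)) hq.1.1.ne' h
    have h3 := sig_inj p hp ι hι h2
    have h4 : q = q' := Prod.ext h1 h3
    rw [h4]
  rw [← lintegral_abs_det_fderiv_eq_addHaar_image volume hSm hder hinj, hS,
    ← hmp.setLIntegral_comp_emb hme]
  refine setLIntegral_congr_fun hST fun q hq => ?_
  beta_reduce
  have h2 : f' (e q) = (Rf (zv p ι q.2)).comp ((q.1 * lam q.2) •
        ContinuousLinearMap.id ℝ (En (n + 1)) + (1 - q.1 * lam q.2) • (innerSL ℝ p).smulRight p) := by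
    simp only [hf', he]
    rw [hin, had]
  have h3 : |(f' (e q)).det| = (q.1 * lam q.2) ^ n := by
    rw [h2]
    have h4 : ((Rf (zv p ι q.2)).comp ((q.1 * lam q.2) •
        ContinuousLinearMap.id ℝ (En (n + 1)) +
        (1 - q.1 * lam q.2) • (innerSL ℝ p).smulRight p)).det =
        LinearMap.det (Rf (zv p ι q.2)).toLinearMap * LinearMap.det (((q.1 * lam q.2) •
        ContinuousLinearMap.id ℝ (En (n + 1)) +
        (1 - q.1 * lam q.2) • (innerSL ℝ p).smulRight p).toLinearMap) := by
      rw [← LinearMap.det_comp]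
      rfl
    rw [h4, abs_mul, Rf_det _ (zv_ne p hp ι hι q.2), cone_det p hp, one_mul, abs_of_nonneg]
    have h5 : 0 ≤ lam q.2 := by unfold lam; positivity
    exact pow_nonneg (mul_nonneg hq.1.1.le h5) n
  exact congrArg ENNReal.ofReal h3

end Pool.Agent.Helper734.PV
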