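import Mathlib
import Pool.Agent.Helper734.PV.Defs
import Pool.Agent.Helper734.PV.JDer
import Pool.Agent.Helper734.PV.JIota
import Pool.Agent.Helper734.PV.JRf
import Pool.Agent.Helper734.PV.JSig

set_option autoImplicit false

namespace Pool.Agent.Helper734.PV

open MeasureTheory Set Filter Topology Metric
open scoped ENNReal NNReal RealInnerProductSpace Pointwise




theorem iota_UW {n : ℕ} (p : En (n + 1)) (hp : ‖p‖ = 1) (ι : En n →ₗᵢ[ℝ] En (n + 1))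
    (hι : ∀ y, inner ℝ (ι y) p = 0) (hs : ∀ w : En (n + 1), inner ℝ w p = 0 → ∃ y, ι y = w)
    (W : En (n + 1) → En (n + 1)) (hW : Adm p W) (y : En n) :
    ι (UW p ι W y) = Rf (zv p ι y) (W (sig p ι y)) := by
  unfold UW
  rw [iota_adj' p hp ι hι hs]
  have h1 : inner ℝ p (Rf (zv p ι y) (W (sig p ι y))) = 0 := by
    rw [← Rf_symm, ← sig_eq p hp ι hι y, real_inner_comm]
    exact (hW.2 _ (sig_mem p hp ι hι y)).2
  simp [Pj, h1]

theorem W_sig {n : ℕ} (p : En (n + 1)) (hp : ‖p‖ = 1) (ι : En n →ₗᵢ[ℝ] En (n + 1))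
    (hι : ∀ y, inner ℝ (ι y) p = 0) (hs : ∀ w : En (n + 1), inner ℝ w p = 0 → ∃ y, ι y = w)
    (W : En (n + 1) → En (n + 1)) (hW : Adm p W) (y : En n) :
    W (sig p ι y) = Rf (zv p ι y) (ι (UW p ι W y)) := by
  rw [iota_UW p hp ι hι hs W hW y, Rf_Rf _ _ (zv_ne p hp ι hι y)]

theorem UW_norm {n : ℕ} (p : En (n + 1)) (hp : ‖p‖ = 1) (ι : En n →ₗᵢ[ℝ] En (n + 1))
    (hι : ∀ y, inner ℝ (ι y) p = 0) (hs : ∀ w : En (n + 1), inner ℝ w p = 0 → ∃ y, ι y = w)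
    (W : En (n + 1) → En (n + 1)) (hW : Adm p W) (y : En n) : ‖UW p ι W y‖ = 1 := by
  rw [← ι.norm_map, iota_UW p hp ι hι hs W hW y]
  rw [@norm_eq_sqrt_real_inner, Rf_inner _ _ _ (zv_ne p hp ι hι y), ← @norm_eq_sqrt_real_inner]
  exact (hW.2 _ (sig_mem p hp ι hι y)).1

theorem UW_contDiff {n : ℕ} (p : En (n + 1)) (hp : ‖p‖ = 1) (ι : En n →ₗᵢ[ℝ] En (n + 1))
    (hι : ∀ y, inner ℝ (ι y) p = 0)
    (W : En (n + 1) → En (n + 1)) (hW : Adm p W) :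
    ContDiff ℝ ((⊤ : ℕ∞) : WithTop ℕ∞) (UW p ι W) := by
  obtain ⟨O, hO, hsub, hWO⟩ := hW.1
  have h1 : ContDiff ℝ ((⊤ : ℕ∞) : WithTop ℕ∞) (fun y => W (sig p ι y)) :=
    hWO.comp_contDiff (sig_contDiff p ι) (fun y => hsub (sig_mem p hp ι hι y))
  have h2 : ContDiff ℝ ((⊤ : ℕ∞) : WithTop ℕ∞) (fun y => zv p ι y) :=
    ι.toContinuousLinearMap.contDiff.sub contDiff_const
  have h3 : ContDiff ℝ ((⊤ : ℕ∞) : WithTop ℕ∞) (fun y => (2 : ℝ) / ‖zv p ι y‖ ^ 2) := by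
    refine contDiff_const.div (h2.norm_sq ℝ) (fun y => ?_)
    have := zv_ne p hp ι hι y
    have := norm_pos_iff.2 this
    positivity
  have h4 : ContDiff ℝ ((⊤ : ℕ∞) : WithTop ℕ∞) (fun y => Rf (zv p ι y) (W (sig p ι y))) := by
    have h5 : (fun y => Rf (zv p ι y) (W (sig p ι y))) = fun y => W (sig p ι y) -
        ((2 : ℝ) / ‖zv p ι y‖ ^ 2) • (inner ℝ (zv p ι y) (W (sig p ι y)) • zv p ι y) := by
      funext y
      simp [Rf]
    rw [h5]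
    exact h1.sub (h3.smul ((h2.inner ℝ h1).smul h2))
  exact (ContinuousLinearMap.adjoint ι.toContinuousLinearMap).contDiff.comp h4

end Pool.Agent.Helper734.PV
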