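import Mathlib
import Pool.Agent.Helper734.PV.Defs
import Pool.Agent.Helper734.PV.JDer
import Pool.Agent.Helper734.PV.JIota
import Pool.Agent.Helper734.PV.JRf
import Pool.Agent.Helper734.PV.JSig
import Pool.Agent.Helper734.PV.JUW

set_option autoImplicit false

namespace Pool.Agent.Helper734.PV

open MeasureTheory Set Filter Topology Metric
open scoped ENNReal NNReal RealInnerProductSpace Pointwise




theorem jDc_j18122_inner_z {n : ℕ} (p : En (n + 1)) (ι : En n →ₗᵢ[ℝ] En (n + 1))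
    (hι : ∀ y, inner ℝ (ι y) p = 0) (y a : En n) :
    inner ℝ (zv p ι y) (ι a) = inner ℝ y a := by
  unfold zv
  rw [inner_sub_left, ι.inner_map_map, real_inner_comm (ι a) p, hι, sub_zero]

theorem jDc_j18122_Rf_apply {n : ℕ} (z v : En (n + 1)) :
    Rf z v = v - (2 / ‖z‖ ^ 2 * inner ℝ z v) • z := by
  unfold Rf
  simp [smul_smul]

theorem jDc_j18122_Pj_apply {n : ℕ} (z v : En (n + 1)) :
    Pj z v = v - (inner ℝ z v : ℝ) • z := by
  unfold Pj
  simp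

theorem jDc_j18122_Rf_iota {n : ℕ} (p : En (n + 1)) (hp : ‖p‖ = 1) (ι : En n →ₗᵢ[ℝ] En (n + 1))
    (hι : ∀ y, inner ℝ (ι y) p = 0) (y a : En n) :
    Rf (zv p ι y) (ι a) = ι a - (lam y * inner ℝ y a) • zv p ι y := by
  rw [jDc_j18122_Rf_apply, jDc_j18122_inner_z p ι hι, zv_norm p hp ι hι, lam]

theorem jDc_j18122_Rf_z {n : ℕ} (z : En (n + 1)) (hz : z ≠ 0) : Rf z z = -z := by
  rw [jDc_j18122_Rf_apply, real_inner_self_eq_norm_sq]
  have h1 : ‖z‖ ≠ 0 := norm_ne_zero_iff.2 hz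
  have h2 : 2 / ‖z‖ ^ 2 * ‖z‖ ^ 2 = 2 := by field_simp
  rw [h2, two_smul]
  abel

theorem jDc_j18122_adj_z {n : ℕ} (p : En (n + 1)) (ι : En n →ₗᵢ[ℝ] En (n + 1))
    (hι : ∀ y, inner ℝ (ι y) p = 0) (y : En n) :
    ContinuousLinearMap.adjoint ι.toContinuousLinearMap (zv p ι y) = y := by
  refine ext_inner_right ℝ fun a => ?_
  rw [ContinuousLinearMap.adjoint_inner_left]
  exact jDc_j18122_inner_z p ι hι y a

theorem Pj_eq {n : ℕ} (p : En (n + 1)) (hp : ‖p‖ = 1) (ι : En n →ₗᵢ[ℝ] En (n + 1))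
    (hι : ∀ y, inner ℝ (ι y) p = 0) (hs : ∀ w : En (n + 1), inner ℝ w p = 0 → ∃ y, ι y = w)
    (y : En n) (v : En (n + 1)) :
    Pj (sig p ι y) v = Rf (zv p ι y)
      (ι (ContinuousLinearMap.adjoint ι.toContinuousLinearMap (Rf (zv p ι y) v))) := by
  have hzne := zv_ne p hp ι hι y
  rw [iota_adj' p hp ι hι hs, jDc_j18122_Pj_apply, jDc_j18122_Pj_apply, map_sub, map_smul,
    Rf_Rf _ _ hzne, ← sig_eq p hp ι hι, ← Rf_symm, ← sig_eq p hp ι hι]

theorem jDc_j18122_lam_deriv {n : ℕ} {γ : ℝ → En n} {ξ : En n} (hγ : HasDerivAt γ ξ 0) :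
    HasDerivAt (fun t => lam (γ t)) (-(lam (γ 0) ^ 2 * inner ℝ (γ 0) ξ)) 0 := by
  have h1 : HasDerivAt (fun t => ‖γ t‖ ^ 2) (2 * inner ℝ (γ 0) ξ) 0 := hγ.norm_sq
  have h2 : HasDerivAt (fun t => 1 + ‖γ t‖ ^ 2) (2 * inner ℝ (γ 0) ξ) 0 := h1.const_add 1
  have hne : 1 + ‖γ 0‖ ^ 2 ≠ 0 := by positivity
  have h3 := (hasDerivAt_const (0 : ℝ) (2 : ℝ)).div h2 hne
  refine h3.congr_deriv ?_
  unfold lam
  field_simp
  ring

theorem jDc_j18122_main {n : ℕ} (p : En (n + 1)) (hp : ‖p‖ = 1) (ι : En n →ₗᵢ[ℝ] En (n + 1))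
    (hι : ∀ y, inner ℝ (ι y) p = 0) (hs : ∀ w : En (n + 1), inner ℝ w p = 0 → ∃ y, ι y = w)
    (W : En (n + 1) → En (n + 1)) (hW : Adm p W) (y ξ : En n) :
    lam y • fderiv ℝ W (sig p ι y) (Rf (zv p ι y) (ι ξ)) =
      ι (fderiv ℝ (UW p ι W) y ξ) -
        ((lam y * (inner ℝ y (fderiv ℝ (UW p ι W) y ξ) + inner ℝ ξ (UW p ι W y)) +
          -(lam y ^ 2 * inner ℝ y ξ) * inner ℝ y (UW p ι W y)) • zv p ι y +
          (lam y * inner ℝ y (UW p ι W y)) • ι ξ) := by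
  have hUd : DifferentiableAt ℝ (UW p ι W) y :=
    (UW_contDiff p hp ι hι W hW).differentiable (by simp) y
  obtain ⟨O, hO, hOs, hWO⟩ := hW.1
  have hWd : DifferentiableAt ℝ W (sig p ι y) :=
    (hWO.contDiffAt (hO.mem_nhds (hOs (sig_mem p hp ι hι y)))).differentiableAt (by simp)
  set γ : ℝ → En n := fun t => y + t • ξ with hγd
  have hγ0 : γ 0 = y := by simp [hγd]
  have hγ : HasDerivAt γ ξ 0 := by
    have := ((hasDerivAt_id (0 : ℝ)).smul_const ξ).const_add y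
    simpa [hγd] using this
  -- left side
  have hL : HasDerivAt (fun t => W (sig p ι (γ t)))
      (lam y • fderiv ℝ W (sig p ι y) (Rf (zv p ι y) (ι ξ))) 0 := by
    have h1 : HasFDerivAt (fun y' => W (sig p ι y')) ((fderiv ℝ W (sig p ι y)).comp
        (lam y • (Rf (zv p ι y)).comp ι.toContinuousLinearMap)) (γ 0) := by
      rw [hγ0]
      exact hWd.hasFDerivAt.comp y (sig_deriv p hp ι hι y)
    have h2 := h1.comp_hasDerivAt 0 hγ
    refine h2.congr_deriv ?_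
    simp
  -- right side
  have hU : HasDerivAt (fun t => UW p ι W (γ t)) (fderiv ℝ (UW p ι W) y ξ) 0 := by
    have h1 : HasFDerivAt (UW p ι W) (fderiv ℝ (UW p ι W) y) (γ 0) := by
      rw [hγ0]; exact hUd.hasFDerivAt
    exact h1.comp_hasDerivAt 0 hγ
  have hιU : HasDerivAt (fun t => ι (UW p ι W (γ t))) (ι (fderiv ℝ (UW p ι W) y ξ)) 0 :=
    ι.toContinuousLinearMap.hasFDerivAt.comp_hasDerivAt 0 hU
  have hιγ : HasDerivAt (fun t => zv p ι (γ t)) (ι ξ) 0 := by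
    have h1 : HasDerivAt (fun t => ι (γ t)) (ι ξ) 0 :=
      ι.toContinuousLinearMap.hasFDerivAt.comp_hasDerivAt 0 hγ
    exact h1.sub_const p
  have hin := hγ.inner ℝ hU
  have hl := jDc_j18122_lam_deriv hγ
  have hR := hιU.sub ((hl.mul hin).smul hιγ)
  have he : (fun t => W (sig p ι (γ t))) = fun t => ι (UW p ι W (γ t)) -
      (lam (γ t) * inner ℝ (γ t) (UW p ι W (γ t))) • zv p ι (γ t) := by
    funext t
    rw [W_sig p hp ι hι hs W hW, jDc_j18122_Rf_iota p hp ι hι]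
  rw [he] at hL
  have hu := hL.unique hR
  rw [hu]
  simp only [hγ0, Pi.mul_apply]
  module

/-- the covariant derivative in the reflected frame -/
theorem Dc_eq {n : ℕ} (p : En (n + 1)) (hp : ‖p‖ = 1) (ι : En n →ₗᵢ[ℝ] En (n + 1))
    (hι : ∀ y, inner ℝ (ι y) p = 0) (hs : ∀ w : En (n + 1), inner ℝ w p = 0 → ∃ y, ι y = w)
    (W : En (n + 1) → En (n + 1)) (hW : Adm p W) (y : En n) (v : En (n + 1)) :
    Dc W (sig p ι y) v = Rf (zv p ι y) (ι (Mop (UW p ι W) y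
      (ContinuousLinearMap.adjoint ι.toContinuousLinearMap (Rf (zv p ι y) v)))) := by
  set ξ := ContinuousLinearMap.adjoint ι.toContinuousLinearMap (Rf (zv p ι y) v) with hξ
  have hzne := zv_ne p hp ι hι y
  have hP1 : Pj (sig p ι y) v = Rf (zv p ι y) (ι ξ) := Pj_eq p hp ι hι hs y v
  have hlam : lam y ≠ 0 := by
    unfold lam
    positivity
  have h0 : Dc W (sig p ι y) v =
      Pj (sig p ι y) (fderiv ℝ W (sig p ι y) (Pj (sig p ι y) v)) := rfl
  rw [h0, hP1, Pj_eq p hp ι hι hs]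
  congr 2
  have hm := jDc_j18122_main p hp ι hι hs W hW y ξ
  set A := fderiv ℝ W (sig p ι y) (Rf (zv p ι y) (ι ξ)) with hA
  set DU := fderiv ℝ (UW p ι W) y ξ with hDU
  -- apply the reflection
  have h1 : lam y • ContinuousLinearMap.adjoint ι.toContinuousLinearMap (Rf (zv p ι y) A) =
      DU + (lam y * inner ℝ ξ (UW p ι W y)) • y - (lam y * inner ℝ y (UW p ι W y)) • ξ := by
    rw [← map_smul, ← map_smul, hm]
    simp only [map_sub, map_add, map_smul, jDc_j18122_Rf_iota p hp ι hι, jDc_j18122_Rf_z _ hzne,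
      iota_adj, jDc_j18122_adj_z p ι hι, map_neg]
    module
  have h2 : ContinuousLinearMap.adjoint ι.toContinuousLinearMap (Rf (zv p ι y) A) =
      (lam y)⁻¹ • (DU + (lam y * inner ℝ ξ (UW p ι W y)) • y -
        (lam y * inner ℝ y (UW p ι W y)) • ξ) := by
    rw [← h1, smul_smul, inv_mul_cancel₀ hlam, one_smul]
  rw [h2]
  have h3 : Mop (UW p ι W) y ξ = (lam y)⁻¹ • DU + (inner ℝ (UW p ι W y) ξ : ℝ) • y
      - (inner ℝ y (UW p ι W y) : ℝ) • ξ := by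
    unfold Mop
    simp [hDU]
  rw [h3, smul_sub, smul_add, smul_smul, smul_smul, ← mul_assoc, ← mul_assoc,
    inv_mul_cancel₀ hlam, one_mul, one_mul, real_inner_comm ξ]

end Pool.Agent.Helper734.PV
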