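import Mathlib
import Pool.Agent.Helper734.PV.Defs
import Pool.Agent.Helper734.PV.JDc
import Pool.Agent.Helper734.PV.JIota
import Pool.Agent.Helper734.PV.JRf
import Pool.Agent.Helper734.PV.JSig

set_option autoImplicit false

namespace Pool.Agent.Helper734.PV

open MeasureTheory Set Filter Topology Metric
open scoped ENNReal NNReal RealInnerProductSpace Pointwise




theorem jGr_gram_conj_det_comm {m n : ℕ} (A : En n →ₗ[ℝ] En m) (B : En m →ₗ[ℝ] En n) :
    LinearMap.det (LinearMap.id + A ∘ₗ B) = LinearMap.det (LinearMap.id + B ∘ₗ A) := by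
  rw [← LinearMap.det_toMatrix (EuclideanSpace.basisFun (Fin m) ℝ).toBasis,
    ← LinearMap.det_toMatrix (EuclideanSpace.basisFun (Fin n) ℝ).toBasis, map_add, map_add,
    LinearMap.toMatrix_id, LinearMap.toMatrix_id,
    LinearMap.toMatrix_comp _ (EuclideanSpace.basisFun (Fin n) ℝ).toBasis _,
    LinearMap.toMatrix_comp _ (EuclideanSpace.basisFun (Fin m) ℝ).toBasis _,
    Matrix.det_one_add_mul_comm]

theorem gram_conj {n : ℕ} (ι : En n →ₗᵢ[ℝ] En (n + 1)) (z : En (n + 1)) (hz : z ≠ 0)
    (D : En (n + 1) →L[ℝ] En (n + 1)) (M : En n →L[ℝ] En n)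
    (h : ∀ v, D v = Rf z (ι (M (ContinuousLinearMap.adjoint ι.toContinuousLinearMap (Rf z v))))) :
    gram D = gram M := by
  have hD : D = (Rf z).comp (ι.toContinuousLinearMap.comp (M.comp
      ((ContinuousLinearMap.adjoint ι.toContinuousLinearMap).comp (Rf z)))) := by
    ext1 v
    rw [h v]
    rfl
  have hDa : ∀ v, ContinuousLinearMap.adjoint D v = Rf z (ι (ContinuousLinearMap.adjoint M
      (ContinuousLinearMap.adjoint ι.toContinuousLinearMap (Rf z v)))) := by
    intro v
    rw [hD]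
    simp only [ContinuousLinearMap.adjoint_comp, ContinuousLinearMap.adjoint_adjoint, Rf_adj]
    rfl
  have hR : (Rf z).toLinearMap ∘ₗ (Rf z).toLinearMap = LinearMap.id := by
    ext1 v
    exact Rf_Rf z v hz
  have key : (ContinuousLinearMap.id ℝ (En (n + 1)) + (ContinuousLinearMap.adjoint D).comp D).toLinearMap
      = (Rf z).toLinearMap ∘ₗ (LinearMap.id + ι.toContinuousLinearMap.toLinearMap ∘ₗ
        (((ContinuousLinearMap.adjoint M).comp M).toLinearMap ∘ₗ
          (ContinuousLinearMap.adjoint ι.toContinuousLinearMap).toLinearMap)) ∘ₗ (Rf z).toLinearMap := by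
    ext1 v
    show v + ContinuousLinearMap.adjoint D (D v) = Rf z (Rf z v + ι (ContinuousLinearMap.adjoint M (M
      (ContinuousLinearMap.adjoint ι.toContinuousLinearMap (Rf z v)))))
    rw [hDa, h v, Rf_Rf z _ hz, iota_adj, map_add, Rf_Rf z _ hz]
  have hadj : (ContinuousLinearMap.adjoint ι.toContinuousLinearMap).toLinearMap ∘ₗ
      ι.toContinuousLinearMap.toLinearMap = LinearMap.id := by
    ext1 v
    exact iota_adj ι v
  unfold gram
  rw [key, LinearMap.det_comp, LinearMap.det_comp, jGr_gram_conj_det_comm, LinearMap.comp_assoc, hadj,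
    LinearMap.comp_id]
  have hdet : LinearMap.det (Rf z).toLinearMap * LinearMap.det (Rf z).toLinearMap = 1 := by
    rw [← LinearMap.det_comp, hR, LinearMap.det_id]
  calc _ = (LinearMap.det (Rf z).toLinearMap * LinearMap.det (Rf z).toLinearMap) *
        LinearMap.det (LinearMap.id + ((ContinuousLinearMap.adjoint M).comp M).toLinearMap) := by ring
    _ = _ := by
      rw [hdet, one_mul]
      rfl

theorem gram_eq {n : ℕ} (p : En (n + 1)) (hp : ‖p‖ = 1) (ι : En n →ₗᵢ[ℝ] En (n + 1))
    (hι : ∀ y, inner ℝ (ι y) p = 0) (hs : ∀ w : En (n + 1), inner ℝ w p = 0 → ∃ y, ι y = w)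
    (W : En (n + 1) → En (n + 1)) (hW : Adm p W) (y : En n) :
    gram (Dc W (sig p ι y)) = gram (Mop (UW p ι W) y) :=
  gram_conj ι (zv p ι y) (zv_ne p hp ι hι y) _ _ (fun v => Dc_eq p hp ι hι hs W hW y v)

end Pool.Agent.Helper734.PV
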