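import Mathlib
import Pool.Agent.Helper734.PV.Defs

set_option autoImplicit false

namespace Pool.Agent.Helper734.PV

open MeasureTheory Set Filter Topology Metric
open scoped ENNReal NNReal RealInnerProductSpace Pointwise




theorem jMeas_gram_cont_18131 {N : ℕ} : Continuous (fun A : En N →L[ℝ] En N => gram A) := by
  have h : Continuous (fun A : En N →L[ℝ] En N =>
      ContinuousLinearMap.id ℝ (En N) + (ContinuousLinearMap.adjoint A).comp A) :=
    continuous_const.add ((ContinuousLinearMap.adjoint.continuous).clm_comp continuous_id)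
  exact ContinuousLinearMap.continuous_det.comp h

theorem jMeas_Pj_cont_18131 {n : ℕ} : Continuous (fun x : En (n + 1) => Pj x) := by
  unfold Pj
  fun_prop

theorem Dc_cont {n : ℕ} (p : En (n + 1)) (W : En (n + 1) → En (n + 1)) (hW : Adm p W) :
    ContinuousOn (fun x => gram (Dc W x)) (Metric.sphere (0 : En (n + 1)) 1 \ {p}) := by
  obtain ⟨⟨O, hO, hsub, hcd⟩, -⟩ := hW
  have h1 : ContinuousOn (fun x => fderiv ℝ W x) O :=
    hcd.continuousOn_fderiv_of_isOpen hO (by simp)
  have h2 : ContinuousOn (fun x => Dc W x) O := by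
    unfold Dc
    exact jMeas_Pj_cont_18131.continuousOn.clm_comp (h1.clm_comp jMeas_Pj_cont_18131.continuousOn)
  exact (jMeas_gram_cont_18131.comp_continuousOn h2).mono hsub

theorem meas_dens {n : ℕ} (p : En (n + 1)) (hp : ‖p‖ = 1) (W : En (n + 1) → En (n + 1)) (hW : Adm p W) :
    Measurable (fun x : Metric.sphere (0 : En (n + 1)) 1 =>
      ENNReal.ofReal (Real.sqrt (gram (Dc W x.1)))) := by
  have hp' : p ∈ Metric.sphere (0 : En (n + 1)) 1 := by simpa using hp
  refine measurable_of_measurable_on_compl_singleton (⟨p, hp'⟩ : Metric.sphere (0 : En (n + 1)) 1) ?_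
  refine Continuous.measurable ?_
  refine ENNReal.continuous_ofReal.comp (Real.continuous_sqrt.comp ?_)
  have h := Dc_cont p W hW
  refine h.comp_continuous (continuous_subtype_val.comp continuous_subtype_val) ?_
  intro x
  refine ⟨x.1.2, ?_⟩
  intro hx
  apply x.2
  exact Subtype.ext hx

end Pool.Agent.Helper734.PV
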