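import Mathlib
import Pool.Agent.Helper734.PV.Defs
import Pool.Agent.Helper734.PV.JConeI
import Pool.Agent.Helper734.PV.JConeV
import Pool.Agent.Helper734.PV.JDer
import Pool.Agent.Helper734.PV.JSig
import Pool.Agent.Helper734.PV.JSur

set_option autoImplicit false

namespace Pool.Agent.Helper734.PV

open MeasureTheory Set Filter Topology Metric
open scoped ENNReal NNReal RealInnerProductSpace Pointwise




theorem toSphere_pt {n : ℕ} (hn : 1 ≤ n) (x : Metric.sphere (0 : En (n + 1)) 1) :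
    Measure.toSphere (volume : Measure (En (n + 1))) {x} = 0 := by
  rw [Measure.toSphere_apply' _ (measurableSet_singleton x)]
  have h1 : (Submodule.span ℝ {(x : En (n + 1))} : Submodule ℝ (En (n + 1))) ≠ ⊤ := by
    intro h
    have h2 := finrank_span_le_card (R := ℝ) ({(x : En (n + 1))} : Set (En (n + 1)))
    rw [h, finrank_top, finrank_euclideanSpace_fin] at h2
    simp at h2
    omega
  have h3 := Measure.addHaar_submodule (volume : Measure (En (n + 1))) _ h1
  have h4 : (Set.Ioo (0 : ℝ) 1 • ((fun y : Metric.sphere (0 : En (n + 1)) 1 => (y : En (n + 1))) '' {x}) :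
      Set (En (n + 1))) ⊆ (Submodule.span ℝ {(x : En (n + 1))} : Submodule ℝ (En (n + 1))) := by
    rintro _ ⟨t, _, _, ⟨y, hy, rfl⟩, rfl⟩
    rw [Set.mem_singleton_iff] at hy
    subst hy
    exact Submodule.smul_mem _ _ (Submodule.mem_span_singleton_self _)
  have h5 : volume (Set.Ioo (0 : ℝ) 1 • ((fun y : Metric.sphere (0 : En (n + 1)) 1 =>
      (y : En (n + 1))) '' {x}) : Set (En (n + 1))) = 0 := measure_mono_null h4 h3
  rw [h5, mul_zero]

theorem toSphere_set {n : ℕ} (hn : 1 ≤ n) (p : En (n + 1)) (hp : ‖p‖ = 1)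
    (ι : En n →ₗᵢ[ℝ] En (n + 1))
    (hι : ∀ y, inner ℝ (ι y) p = 0) (hs : ∀ w : En (n + 1), inner ℝ w p = 0 → ∃ y, ι y = w)
    (S : Set (Metric.sphere (0 : En (n + 1)) 1)) (hS : MeasurableSet S) :
    Measure.toSphere (volume : Measure (En (n + 1))) S
      = ∫⁻ y in {y : En n | ∃ x ∈ S, (x : En (n + 1)) = sig p ι y},
          ENNReal.ofReal (lam y ^ n) := by
  have hpm : p ∈ Metric.sphere (0 : En (n + 1)) 1 := by simpa using hp
  set P : Metric.sphere (0 : En (n + 1)) 1 := ⟨p, hpm⟩ with hP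
  set T : Set (En n) := {y : En n | ∃ x ∈ S, (x : En (n + 1)) = sig p ι y} with hT
  have hsm : ∀ y, sig p ι y ∈ Metric.sphere (0 : En (n + 1)) 1 := fun y => (sig_mem p hp ι hι y).1
  have hTm : MeasurableSet T := by
    have hc : Continuous (fun y => (⟨sig p ι y, hsm y⟩ : Metric.sphere (0 : En (n + 1)) 1)) :=
      (sig_contDiff p ι).continuous.subtype_mk _
    have h1 : T = (fun y => (⟨sig p ι y, hsm y⟩ : Metric.sphere (0 : En (n + 1)) 1)) ⁻¹' S := by
      ext y
      constructor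
      · rintro ⟨x, hx, hxy⟩
        have : (⟨sig p ι y, hsm y⟩ : Metric.sphere (0 : En (n + 1)) 1) = x := Subtype.ext hxy.symm
        show (⟨sig p ι y, hsm y⟩ : Metric.sphere (0 : En (n + 1)) 1) ∈ S
        rw [this]; exact hx
      · intro hy
        exact ⟨_, hy, rfl⟩
    rw [h1]
    exact hc.measurable hS
  have himg : ((fun y : Metric.sphere (0 : En (n + 1)) 1 => (y : En (n + 1))) '' (S \ {P})) =
      sig p ι '' T := by
    ext v
    constructor
    · rintro ⟨x, ⟨hx, hxP⟩, rfl⟩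
      have hne : (x : En (n + 1)) ≠ p := fun h => hxP (Subtype.ext h)
      obtain ⟨y, hy⟩ := sig_surj p hp ι hι hs x ⟨x.2, hne⟩
      exact ⟨y, ⟨x, hx, hy.symm⟩, hy⟩
    · rintro ⟨y, ⟨x, hx, hxy⟩, rfl⟩
      refine ⟨x, ⟨hx, ?_⟩, hxy⟩
      intro h
      have h2 : x = P := h
      have h3 := (sig_mem p hp ι hι y).2
      apply h3
      show sig p ι y = p
      rw [← hxy, h2]
  have h1 : Measure.toSphere (volume : Measure (En (n + 1))) S =
      Measure.toSphere (volume : Measure (En (n + 1))) (S \ {P}) :=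
    (measure_sdiff_null (toSphere_pt hn P)).symm
  rw [h1, Measure.toSphere_apply' _ (hS.diff (measurableSet_singleton P))]
  have h2 : volume (Set.Ioo (0 : ℝ) 1 • ((fun y : Metric.sphere (0 : En (n + 1)) 1 =>
      (y : En (n + 1))) '' (S \ {P})) : Set (En (n + 1))) =
      ENNReal.ofReal ((n + 1 : ℝ)⁻¹) * ∫⁻ y in T, ENNReal.ofReal (lam y ^ n) := by
    rw [himg, ← cone_set p hp ι hι T, cone_vol p hp ι hι hs T hTm, cone_int T hTm]
  rw [h2, ← mul_assoc, finrank_euclideanSpace_fin]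
  have h3 : ((n + 1 : ℕ) : ℝ≥0∞) * ENNReal.ofReal ((n + 1 : ℝ)⁻¹) = 1 := by
    rw [ENNReal.ofReal_inv_of_pos (by positivity)]
    have h4 : ENNReal.ofReal ((n : ℝ) + 1) = ((n + 1 : ℕ) : ℝ≥0∞) := by
      rw [← ENNReal.ofReal_natCast]
      push_cast
      rfl
    rw [h4]
    exact ENNReal.mul_inv_cancel (by simp) (ENNReal.natCast_ne_top _)
  rw [h3, one_mul]

end Pool.Agent.Helper734.PV
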