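import Mathlib
import Pool.Agent.Helper734.PV.Defs
import Pool.Agent.Helper734.PV.JDer
import Pool.Agent.Helper734.PV.JGr
import Pool.Agent.Helper734.PV.JMeas
import Pool.Agent.Helper734.PV.JSig
import Pool.Agent.Helper734.PV.JSur
import Pool.Agent.Helper734.PV.JTo
import Pool.Agent.Helper734.PV.JUW

set_option autoImplicit false

namespace Pool.Agent.Helper734.PV

open MeasureTheory Set Filter Topology Metric
open scoped ENNReal NNReal RealInnerProductSpace Pointwise




theorem lint_sphere {n : ℕ} (hn : 1 ≤ n) (p : En (n + 1)) (hp : ‖p‖ = 1)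
    (ι : En n →ₗᵢ[ℝ] En (n + 1))
    (hι : ∀ y, inner ℝ (ι y) p = 0) (hs : ∀ w : En (n + 1), inner ℝ w p = 0 → ∃ y, ι y = w)
    (hsp : ∀ y, sig p ι y ∈ Metric.sphere (0 : En (n + 1)) 1)
    (f : Metric.sphere (0 : En (n + 1)) 1 → ENNReal) (hf : Measurable f) :
    ∫⁻ x, f x ∂(Measure.toSphere (volume : Measure (En (n + 1))))
      = ∫⁻ y : En n, ENNReal.ofReal (lam y ^ n) * f (sigS p ι hsp y) := by
  have hcont : Continuous (sig p ι) := (sig_contDiff p ι).continuous
  have hm : Measurable (sigS p ι hsp) := (hcont.subtype_mk hsp).measurable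
  have hlc : Continuous (fun y : En n => lam y) := by
    unfold lam
    refine continuous_const.div (by fun_prop) ?_
    intro y
    positivity
  have hl : Measurable (fun y : En n => ENNReal.ofReal (lam y ^ n)) :=
    ENNReal.measurable_ofReal.comp (hlc.pow n).measurable
  have hmu : Measure.toSphere (volume : Measure (En (n + 1))) =
      Measure.map (sigS p ι hsp) (volume.withDensity (fun y : En n => ENNReal.ofReal (lam y ^ n))) := by
    refine Measure.ext fun S hS => ?_
    have hpre : {y : En n | ∃ x ∈ S, (x : En (n + 1)) = sig p ι y} = sigS p ι hsp ⁻¹' S := by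
      ext y
      constructor
      · rintro ⟨x, hx, hxy⟩
        have : sigS p ι hsp y = x := Subtype.ext hxy.symm
        show sigS p ι hsp y ∈ S
        rw [this]; exact hx
      · intro hy
        exact ⟨sigS p ι hsp y, hy, rfl⟩
    rw [toSphere_set hn p hp ι hι hs S hS, Measure.map_apply hm hS,
      withDensity_apply _ (hm hS), hpre]
  rw [hmu, lintegral_map hf hm]
  have := lintegral_withDensity_eq_lintegral_mul (volume : Measure (En n)) hl (hf.comp hm)
  rw [Function.comp_def] at this
  rw [this]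
  rfl

theorem volS_eq {n : ℕ} (hn : 1 ≤ n) (p : En (n + 1)) (hp : ‖p‖ = 1)
    (ι : En n →ₗᵢ[ℝ] En (n + 1))
    (hι : ∀ y, inner ℝ (ι y) p = 0) (hs : ∀ w : En (n + 1), inner ℝ w p = 0 → ∃ y, ι y = w)
    (W : En (n + 1) → En (n + 1)) (hW : Adm p W) :
    volS W = vol' (UW p ι W) := by
  have hsp : ∀ y, sig p ι y ∈ Metric.sphere (0 : En (n + 1)) 1 := fun y =>
    (sig_mem p hp ι hι y).1
  unfold volS vol'
  rw [lint_sphere hn p hp ι hι hs hsp _ (meas_dens p hp W hW)]
  refine lintegral_congr fun y => ?_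
  have h0 : (0 : ℝ) ≤ lam y ^ n := by
    unfold lam
    positivity
  show ENNReal.ofReal (lam y ^ n) *
    ENNReal.ofReal (Real.sqrt (gram (Dc W (sig p ι y)))) = _
  rw [gram_eq p hp ι hι hs W hW y, ← ENNReal.ofReal_mul h0]
  rfl

end Pool.Agent.Helper734.PV
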