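import Mathlib
import Pool.Agent.Helper734.PV.Defs
import Pool.Agent.Helper734.PV.JIota
import Pool.Agent.Helper734.PV.JRf
import Pool.Agent.Helper734.PV.JSig
import Pool.Agent.Helper734.PV.JUW

set_option autoImplicit false

namespace Pool.Agent.Helper734.PV

open MeasureTheory Set Filter Topology Metric
open scoped ENNReal NNReal RealInnerProductSpace Pointwise




/-- the parallel field -/
theorem par_adm {n : ℕ} (p : En (n + 1)) (hp : ‖p‖ = 1) (v : En (n + 1)) (hv : ‖v‖ = 1)
    (hvp : inner ℝ v p = 0) :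
    Adm p (fun x => v - (inner ℝ v x / (1 - inner ℝ p x)) • (x - p)) := by
  constructor
  · refine ⟨{x | inner ℝ p x ≠ (1:ℝ)}, ?_, ?_, ?_⟩
    · exact isOpen_ne_fun (by fun_prop) continuous_const
    · intro x hx
      have hx1 : ‖x‖ = 1 := mem_sphere_zero_iff_norm.1 hx.1
      have hx2 : x ≠ p := hx.2
      show inner ℝ p x ≠ (1:ℝ)
      intro h
      exact hx2 ((inner_eq_one_iff_of_norm_eq_one hp hx1).1 h).symm
    · have h1 : ContDiff ℝ ((⊤ : ℕ∞) : WithTop ℕ∞) (fun x : En (n + 1) => (inner ℝ v x : ℝ)) :=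
        contDiff_const.inner ℝ contDiff_id
      have h2 : ContDiff ℝ ((⊤ : ℕ∞) : WithTop ℕ∞) (fun x : En (n + 1) => (1 - inner ℝ p x : ℝ)) :=
        contDiff_const.sub (contDiff_const.inner ℝ contDiff_id)
      have h3 : ContDiff ℝ ((⊤ : ℕ∞) : WithTop ℕ∞) (fun x : En (n + 1) => x - p) :=
        contDiff_id.sub contDiff_const
      refine contDiffOn_const.sub ((h1.contDiffOn.div h2.contDiffOn ?_).smul h3.contDiffOn)
      intro x hx
      have hx' : inner ℝ p x ≠ (1:ℝ) := hx
      exact sub_ne_zero.2 hx'.symm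
  · intro x hx
    have hx1 : ‖x‖ = 1 := mem_sphere_zero_iff_norm.1 hx.1
    have hx2 : x ≠ p := hx.2
    have hne : (inner ℝ p x : ℝ) ≠ 1 := by
      intro h
      exact hx2 ((inner_eq_one_iff_of_norm_eq_one hp hx1).1 h).symm
    have ha : (1 - inner ℝ p x : ℝ) ≠ 0 := sub_ne_zero.2 hne.symm
    obtain ⟨c, hc⟩ : ∃ c : ℝ, c = inner ℝ v x / (1 - inner ℝ p x) := ⟨_, rfl⟩
    have hca : c * (1 - inner ℝ p x) = inner ℝ v x := by rw [hc]; field_simp
    have hxx : (inner ℝ x x : ℝ) = 1 := by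
      rw [real_inner_self_eq_norm_sq, hx1]; norm_num
    constructor
    · show ‖v - (inner ℝ v x / (1 - inner ℝ p x)) • (x - p)‖ = 1
      rw [← hc]
      have h1 : ‖v - c • (x - p)‖ ^ 2 = 1 := by
        rw [@norm_sub_sq ℝ, norm_smul, mul_pow, @norm_sub_sq ℝ, inner_smul_right, inner_sub_right,
          hv, hx1, hp, hvp]
        simp only [RCLike.re_to_real]
        rw [real_inner_comm p x, Real.norm_eq_abs, sq_abs]
        linear_combination 2 * c * hca
      have h2 : 0 ≤ ‖v - c • (x - p)‖ := norm_nonneg _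
      nlinarith
    · show inner ℝ (v - (inner ℝ v x / (1 - inner ℝ p x)) • (x - p)) x = 0
      rw [← hc, inner_sub_left, inner_smul_left, inner_sub_left, hxx]
      simp only [conj_trivial]
      linear_combination -hca

theorem par_UW {n : ℕ} (p : En (n + 1)) (hp : ‖p‖ = 1) (ι : En n →ₗᵢ[ℝ] En (n + 1))
    (hι : ∀ y, inner ℝ (ι y) p = 0) (hs : ∀ w : En (n + 1), inner ℝ w p = 0 → ∃ y, ι y = w)
    (u : En n) (W : En (n + 1) → En (n + 1)) (hW : Adm p W) (y : En n) :
    W (sig p ι y) = ι u - (inner ℝ (ι u) (sig p ι y) / (1 - inner ℝ p (sig p ι y))) •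
      (sig p ι y - p) ↔ UW p ι W y = u := by
  have hlam : lam y = 2 / ‖zv p ι y‖ ^ 2 := by
    rw [zv_norm p hp ι hι y]; rfl
  have hz : zv p ι y ≠ 0 := zv_ne p hp ι hι y
  have hl0 : lam y ≠ 0 := by
    unfold lam; positivity
  have hsig : sig p ι y = p + lam y • zv p ι y := by
    rw [← sig_sub p hp ι hι y]; abel
  have hin : (inner ℝ (ι u) (sig p ι y) : ℝ) = lam y * inner ℝ (ι u) (zv p ι y) := by
    rw [hsig, inner_add_right, hι, inner_smul_right, zero_add]
  have hR : ι u - (inner ℝ (ι u) (sig p ι y) / (1 - inner ℝ p (sig p ι y))) •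
      (sig p ι y - p) = Rf (zv p ι y) (ι u) := by
    rw [hin, inner_p_sig p hp ι hι y, sig_sub p hp ι hι y, mul_div_cancel_left₀ _ hl0, smul_smul]
    unfold Rf
    simp only [ContinuousLinearMap.sub_apply, ContinuousLinearMap.id_apply,
      ContinuousLinearMap.smul_apply, ContinuousLinearMap.smulRight_apply, innerSL_apply_apply]
    rw [← hlam, smul_smul, real_inner_comm, mul_comm]
  rw [hR, W_sig p hp ι hι hs W hW y]
  constructor
  · intro h
    have h1 := congrArg (Rf (zv p ι y)) h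
    rw [Rf_Rf _ _ hz, Rf_Rf _ _ hz] at h1
    exact ι.injective h1
  · intro h
    rw [h]

end Pool.Agent.Helper734.PV
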