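import Mathlib
import Pool.Agent.Helper734.PV.Defs
import Pool.Agent.Helper734.PV.JIota
import Pool.Agent.Helper734.PV.JLint
import Pool.Agent.Helper734.PV.JPar
import Pool.Agent.Helper734.PV.JSig
import Pool.Agent.Helper734.PV.JSur
import Pool.Agent.Helper734.PV.JUW

set_option autoImplicit false

namespace Pool.Agent.Helper734.PV

open MeasureTheory Set Filter Topology Metric
open scoped ENNReal NNReal RealInnerProductSpace Pointwise




theorem partA_gen {m : ℕ} (hm : 2 ≤ m) (hC : Core m) (p : En (2 * m + 1)) (hp : ‖p‖ = 1)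
    (V : En (2 * m + 1) → En (2 * m + 1)) (hV : Adm p V) :
    (∀ W, Adm p W → volS V ≤ volS W) ↔
      ∃ v : En (2 * m + 1), ‖v‖ = 1 ∧ inner ℝ v p = 0 ∧
        ∀ x ∈ Metric.sphere (0 : En (2 * m + 1)) 1 \ {p},
          V x = v - (inner ℝ v x / (1 - inner ℝ p x)) • (x - p) := by
  obtain ⟨ι, hι, hs⟩ := exists_iota p hp
  constructor
  · intro h
    obtain ⟨u0, hu0⟩ : ∃ u0, u0 = UW p ι V 0 := ⟨_, rfl⟩
    have hn0 : ‖u0‖ = 1 := by
      rw [hu0]
      exact UW_norm p hp ι hι hs V hV 0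
    have hv0 : ‖ι u0‖ = 1 := by rw [ι.norm_map, hn0]
    have hadm := par_adm p hp (ι u0) hv0 (hι u0)
    have hUW : UW p ι (fun x => ι u0 - (inner ℝ (ι u0) x / (1 - inner ℝ p x)) • (x - p)) =
        fun _ => u0 := by
      funext y
      exact (par_UW p hp ι hι hs u0 _ hadm y).mp rfl
    have hle := h _ hadm
    rw [volS_eq (by omega) p hp ι hι hs V hV, volS_eq (by omega) p hp ι hι hs _ hadm, hUW] at hle
    have hconst := (hC (UW p ι V) (UW_contDiff p hp ι hι V hV)
      (UW_norm p hp ι hι hs V hV) u0 hn0).2 hle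
    refine ⟨ι u0, hv0, hι u0, ?_⟩
    intro x hx
    obtain ⟨y, rfl⟩ := sig_surj p hp ι hι hs x hx
    exact (par_UW p hp ι hι hs u0 V hV y).mpr (by rw [hconst y, hu0])
  · rintro ⟨v, hv, hvp, hVx⟩ W hW
    obtain ⟨u, rfl⟩ := hs v hvp
    have hu : ‖u‖ = 1 := by rw [← ι.norm_map, hv]
    have hUW : UW p ι V = fun _ => u := by
      funext y
      exact (par_UW p hp ι hι hs u V hV y).mp (hVx _ (sig_mem p hp ι hι y))
    rw [volS_eq (by omega) p hp ι hι hs V hV, volS_eq (by omega) p hp ι hι hs W hW, hUW]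
    exact (hC (UW p ι W) (UW_contDiff p hp ι hι W hW) (UW_norm p hp ι hι hs W hW) u hu).1

end Pool.Agent.Helper734.PV
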