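import Mathlib
import Pool.Agent.Helper734.PV.JIota
import Pool.Agent.Helper734.PV.JRf
import Pool.Agent.Helper734.PV.JSig
import Pool.Agent.Helper734.PV.JSur
import Pool.Agent.Helper734.PV.JDer
import Pool.Agent.Helper734.PV.JUW
import Pool.Agent.Helper734.PV.JDc
import Pool.Agent.Helper734.PV.JGr
import Pool.Agent.Helper734.PV.JMeas
import Pool.Agent.Helper734.PV.JProd
import Pool.Agent.Helper734.PV.JCone
import Pool.Agent.Helper734.PV.JConeV
import Pool.Agent.Helper734.PV.JConeI
import Pool.Agent.Helper734.PV.JTo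
import Pool.Agent.Helper734.PV.JLint
import Pool.Agent.Helper734.PV.JPar
import Pool.Agent.Helper734.PV.JFin
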