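import Mathlib
import Pool.Agent.Helper734.PV.JFin

set_option autoImplicit false

namespace Pool.Agent.Helper734.PV

open MeasureTheory

/-- the frozen statement follows from `Core` -/
theorem frozen_of_core (hC : ∀ m, 2 ≤ m → Core m) :
    ∀ m : ℕ, 2 ≤ m → ∀ p : EuclideanSpace ℝ (Fin (2 * m + 1)), ‖p‖ = 1 →
    ∀ P : EuclideanSpace ℝ (Fin (2 * m + 1)) →
        (EuclideanSpace ℝ (Fin (2 * m + 1)) →L[ℝ] EuclideanSpace ℝ (Fin (2 * m + 1))),
      (∀ x : EuclideanSpace ℝ (Fin (2 * m + 1)),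
        P x = ContinuousLinearMap.id ℝ (EuclideanSpace ℝ (Fin (2 * m + 1)))
          - (innerSL ℝ x).smulRight x) →
    ∀ D : (EuclideanSpace ℝ (Fin (2 * m + 1)) → EuclideanSpace ℝ (Fin (2 * m + 1))) →
        EuclideanSpace ℝ (Fin (2 * m + 1)) →
        (EuclideanSpace ℝ (Fin (2 * m + 1)) →L[ℝ] EuclideanSpace ℝ (Fin (2 * m + 1))),
      (∀ W x, D W x = (P x).comp ((fderiv ℝ W x).comp (P x))) →
    ∀ vol : (EuclideanSpace ℝ (Fin (2 * m + 1)) → EuclideanSpace ℝ (Fin (2 * m + 1))) → ENNReal,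
      (∀ W, vol W = MeasureTheory.lintegral
          (MeasureTheory.Measure.toSphere
            (MeasureTheory.volume : MeasureTheory.Measure (EuclideanSpace ℝ (Fin (2 * m + 1)))))
          (fun x : Metric.sphere (0 : EuclideanSpace ℝ (Fin (2 * m + 1))) 1 =>
            ENNReal.ofReal (Real.sqrt (LinearMap.det
              (ContinuousLinearMap.id ℝ (EuclideanSpace ℝ (Fin (2 * m + 1)))
                + (ContinuousLinearMap.adjoint (D W x.1)).comp (D W x.1)).toLinearMap)))) →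
    ∀ A : (EuclideanSpace ℝ (Fin (2 * m + 1)) → EuclideanSpace ℝ (Fin (2 * m + 1))) → Prop,
      (∀ W, A W ↔
          ((∃ U : Set (EuclideanSpace ℝ (Fin (2 * m + 1))), IsOpen U ∧
              Metric.sphere (0 : EuclideanSpace ℝ (Fin (2 * m + 1))) 1 \ {p} ⊆ U ∧
              ContDiffOn ℝ ((⊤ : ℕ∞) : WithTop ℕ∞) W U) ∧
            ∀ x ∈ Metric.sphere (0 : EuclideanSpace ℝ (Fin (2 * m + 1))) 1 \ {p},
              ‖W x‖ = 1 ∧ inner ℝ (W x) x = 0)) →
    ∀ V : EuclideanSpace ℝ (Fin (2 * m + 1)) → EuclideanSpace ℝ (Fin (2 * m + 1)), A V →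
      ((∀ W, A W → vol V ≤ vol W) ↔
        ∃ v : EuclideanSpace ℝ (Fin (2 * m + 1)), ‖v‖ = 1 ∧ inner ℝ v p = 0 ∧
          ∀ x ∈ Metric.sphere (0 : EuclideanSpace ℝ (Fin (2 * m + 1))) 1 \ {p},
            V x = v - (inner ℝ v x / (1 - inner ℝ p x)) • (x - p))  := by
  intro m hm p hp P hP D hD vol hvol A hA V hV
  have hP' : P = Pj := funext fun x => by rw [hP x]; rfl
  subst hP'
  have hD' : D = Dc := funext fun W => funext fun x => by rw [hD W x]; rfl
  subst hD'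
  have hvol' : vol = volS := funext fun W => by rw [hvol W]; rfl
  subst hvol'
  have hA' : ∀ W, A W ↔ Adm p W := fun W => (hA W).trans Iff.rfl
  have h := partA_gen hm (hC m hm) p hp V ((hA' V).1 hV)
  rw [← h]
  constructor
  · intro h1 W hW
    exact h1 W ((hA' W).2 hW)
  · intro h1 W hW
    exact h1 W ((hA' W).1 hW)

end Pool.Agent.Helper734.PV
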