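import Mathlib
import Pool.Agent.Helper734.PV.Defs
import Pool.Agent.Helper734.PV.JDer
import Pool.Agent.Helper734.PV.JSig
import Pool.Agent.Helper734.PV.JTo

set_option autoImplicit false

namespace Pool.Agent.Helper734.PV

open MeasureTheory Set Filter Topology Metric
open scoped ENNReal NNReal RealInnerProductSpace Pointwise




theorem ae_flat {n : ℕ} (hn : 1 ≤ n) (p : En (n + 1)) (hp : ‖p‖ = 1)
    (ι : En n →ₗᵢ[ℝ] En (n + 1))
    (hι : ∀ y, inner ℝ (ι y) p = 0) (hs : ∀ w : En (n + 1), inner ℝ w p = 0 → ∃ y, ι y = w)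
    (Q : En (n + 1) → Prop)
    (h : ∀ᵐ x : Metric.sphere (0 : En (n + 1)) 1
      ∂(Measure.toSphere (volume : Measure (En (n + 1)))), (x : En (n + 1)) ≠ p → Q x) :
    ∀ᵐ y : En n, Q (sig p ι y) := by
  set B : Set (Metric.sphere (0 : En (n + 1)) 1) :=
    {x | ¬ ((x : En (n + 1)) ≠ p → Q x)} with hBdef
  have hB : Measure.toSphere (volume : Measure (En (n + 1))) B = 0 := h
  set t := toMeasurable (Measure.toSphere (volume : Measure (En (n + 1)))) B with ht
  have htm : MeasurableSet t := measurableSet_toMeasurable _ _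
  have ht0 : Measure.toSphere (volume : Measure (En (n + 1))) t = 0 := by
    rw [ht, measure_toMeasurable]; exact hB
  have hsub : B ⊆ t := subset_toMeasurable _ _
  rw [toSphere_set hn p hp ι hι hs t htm] at ht0
  set T : Set (En n) := {y : En n | ∃ x ∈ t, (x : En (n + 1)) = sig p ι y} with hT
  have hTm : MeasurableSet T := by
    have hc : Continuous (fun y : En n =>
        (⟨sig p ι y, (sig_mem p hp ι hι y).1⟩ : Metric.sphere (0 : En (n + 1)) 1)) :=
      Continuous.subtype_mk (sig_contDiff p ι).continuous _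
    have hTe : T = (fun y : En n =>
        (⟨sig p ι y, (sig_mem p hp ι hι y).1⟩ : Metric.sphere (0 : En (n + 1)) 1)) ⁻¹' t := by
      ext y
      constructor
      · rintro ⟨x, hx, hxy⟩
        have hxx : (⟨sig p ι y, (sig_mem p hp ι hι y).1⟩ :
          Metric.sphere (0 : En (n + 1)) 1) = x := Subtype.ext hxy.symm
        rw [Set.mem_preimage, hxx]
        exact hx
      · intro hy
        exact ⟨_, hy, rfl⟩
    rw [hTe]
    exact hc.measurable htm
  have hlc : Continuous (fun y : En n => lam y ^ n) := by
    unfold lam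
    apply Continuous.pow
    apply Continuous.div continuous_const (by fun_prop)
    intro y
    positivity
  have hvol : volume T = 0 := by
    have hme : Measurable (fun y : En n => ENNReal.ofReal (lam y ^ n)) :=
      ENNReal.measurable_ofReal.comp hlc.measurable
    rw [setLIntegral_eq_zero_iff hTm hme] at ht0
    rw [measure_eq_zero_iff_ae_notMem]
    filter_upwards [ht0] with y hy hyT
    have h1 := hy hyT
    rw [ENNReal.ofReal_eq_zero] at h1
    have hl : 0 < lam y := by unfold lam; positivity
    have := pow_pos hl n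
    linarith
  rw [measure_eq_zero_iff_ae_notMem] at hvol
  filter_upwards [hvol] with y hy
  by_contra hQ
  apply hy
  refine ⟨⟨sig p ι y, (sig_mem p hp ι hι y).1⟩, hsub ?_, rfl⟩
  intro h'
  exact hQ (h' (sig_ne p hp ι hι y))

end Pool.Agent.Helper734.PV
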