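import Mathlib
import Pool.Agent.Helper734.PV.Defs

set_option autoImplicit false

namespace Pool.Agent.Helper734.PV

open MeasureTheory Set Filter Topology Metric
open scoped ENNReal NNReal RealInnerProductSpace Pointwise




theorem Mop_const {n : ℕ} (u y : En n) :
    Mop (fun _ => u) y = (innerSL ℝ u).smulRight y
      - (inner ℝ y u) • ContinuousLinearMap.id ℝ (En n) := by
  unfold Mop
  have h1 : fderiv ℝ (fun _ : En n => u) y = 0 := by
    rw [fderiv_const_apply]
  have h2 : (lam y)⁻¹ • fderiv ℝ (fun _ : En n => u) y = 0 := by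
    rw [h1]
    exact smul_zero (A := En n →L[ℝ] En n) ((lam y)⁻¹)
  rw [h2]
  simp

theorem gram_nonneg {E : Type*} [NormedAddCommGroup E] [InnerProductSpace ℝ E]
    [FiniteDimensional ℝ E] (M : E →L[ℝ] E) : 1 ≤ gram M := by
  obtain ⟨S, hS⟩ : ∃ S : E →ₗ[ℝ] E, S =
    (ContinuousLinearMap.id ℝ E + (ContinuousLinearMap.adjoint M).comp M).toLinearMap := ⟨_, rfl⟩
  have hSapp : ∀ x, S x = x + ContinuousLinearMap.adjoint M (M x) := by
    intro x; rw [hS]; rfl
  have hinner : ∀ x z, inner ℝ (S x) z = inner ℝ x z + inner ℝ (M x) (M z) := by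
    intro x z
    rw [hSapp, inner_add_left, ContinuousLinearMap.adjoint_inner_left]
  have hinner' : ∀ x z, inner ℝ x (S z) = inner ℝ x z + inner ℝ (M x) (M z) := by
    intro x z
    rw [hSapp, inner_add_right, ContinuousLinearMap.adjoint_inner_right]
  have hsym : S.IsSymmetric := by
    intro x z
    rw [hinner, hinner']
  unfold gram
  rw [← hS, hsym.det_eq_prod_eigenvalues rfl]
  have h1 : ∀ i, (1 : ℝ) ≤ hsym.eigenvalues rfl i := by
    intro i
    have h2 := hsym.apply_eigenvectorBasis rfl i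
    have h3 : ‖hsym.eigenvectorBasis rfl i‖ = 1 := (hsym.eigenvectorBasis rfl).norm_eq_one i
    have h4 := hinner (hsym.eigenvectorBasis rfl i) (hsym.eigenvectorBasis rfl i)
    rw [h2, real_inner_smul_left, real_inner_self_eq_norm_sq, h3, real_inner_self_eq_norm_sq] at h4
    have h5 : ((hsym.eigenvalues rfl i : ℝ) : ℝ) = 1 + ‖M (hsym.eigenvectorBasis rfl i)‖ ^ 2 := by
      simpa using h4
    rw [h5]
    nlinarith [sq_nonneg ‖M (hsym.eigenvectorBasis rfl i)‖]
  have h2 : (1 : ℝ) = ∏ i : Fin (Module.finrank ℝ E), (1 : ℝ) := by simp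
  rw [h2]
  exact Finset.prod_le_prod (fun i _ => zero_le_one) (fun i _ => h1 i)

theorem gram_leaf_flat {n : ℕ} (hn : 2 ≤ n) (u y : En n) (hu : ‖u‖ = 1) :
    gram (Mop (fun _ => u) y) = (1 + (inner ℝ y u) ^ 2) ^ (n - 2) * (1 + ‖y‖ ^ 2) := by
  obtain ⟨k, hk⟩ : ∃ k : ℝ, k = inner ℝ y u := ⟨_, rfl⟩
  rw [Mop_const, ← hk]
  unfold gram
  obtain ⟨M, hM⟩ : ∃ M : En n →L[ℝ] En n, M = (innerSL ℝ u).smulRight y
      - k • ContinuousLinearMap.id ℝ (En n) := ⟨_, rfl⟩
  rw [← hM]
  have hMapp : ∀ x, M x = (inner ℝ u x) • y - k • x := by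
    intro x
    rw [hM]
    simp
  obtain ⟨b, hb⟩ : ∃ b : OrthonormalBasis (Fin n) ℝ (En n), b = EuclideanSpace.basisFun (Fin n) ℝ :=
    ⟨_, rfl⟩
  have hbu : ∀ (v : En n) (i : Fin n), inner ℝ v (b i) = v i := by
    intro v i
    rw [real_inner_comm, hb, EuclideanSpace.basisFun_inner]
  have hbb : ∀ i j, inner ℝ (b i) (b j) = (1 : Matrix (Fin n) (Fin n) ℝ) i j := by
    intro i j
    rw [Matrix.one_apply]
    exact orthonormal_iff_ite.1 b.orthonormal i j
  have hent : LinearMap.toMatrix b.toBasis b.toBasis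
      (ContinuousLinearMap.id ℝ (En n) + (ContinuousLinearMap.adjoint M).comp M).toLinearMap =
      (1 + k ^ 2) • (1 + (Matrix.of fun (i : Fin n) (a : Fin 2) => if a = 0 then u i else y i) *
        (Matrix.of fun (a : Fin 2) (j : Fin n) =>
          if a = 0 then (1 + k ^ 2)⁻¹ * (‖y‖ ^ 2 * u j - k * y j)
          else (1 + k ^ 2)⁻¹ * (-k * u j))) := by
    ext i j
    rw [LinearMap.toMatrix_apply]
    have h1 : (b.toBasis.repr ((ContinuousLinearMap.id ℝ (En n) +
        (ContinuousLinearMap.adjoint M).comp M).toLinearMap (b.toBasis j))) i =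
        inner ℝ (b i) (b j) + inner ℝ (M (b i)) (M (b j)) := by
      rw [OrthonormalBasis.coe_toBasis_repr_apply, OrthonormalBasis.repr_apply_apply,
        OrthonormalBasis.coe_toBasis]
      have h2 : (ContinuousLinearMap.id ℝ (En n) +
        (ContinuousLinearMap.adjoint M).comp M).toLinearMap (b j) =
        b j + ContinuousLinearMap.adjoint M (M (b j)) := rfl
      rw [h2, inner_add_right, ContinuousLinearMap.adjoint_inner_right]
    have h3 : inner ℝ (M (b i)) (M (b j)) = u i * u j * ‖y‖ ^ 2 - k * u i * y j - k * y i * u j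
        + k ^ 2 * inner ℝ (b i) (b j) := by
      rw [hMapp, hMapp]
      simp only [inner_sub_left, inner_sub_right, real_inner_smul_left, real_inner_smul_right]
      rw [real_inner_self_eq_norm_sq, real_inner_comm y (b i), hbu u i, hbu u j, hbu y i, hbu y j]
      ring
    rw [h1, h3, hbb, Matrix.smul_apply, Matrix.add_apply, Matrix.mul_apply, Fin.sum_univ_two]
    have hc : (1 + k ^ 2) ≠ 0 := by positivity
    simp only [Matrix.of_apply, smul_eq_mul, if_true, one_ne_zero, if_false]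
    field_simp
    ring
  rw [← LinearMap.det_toMatrix b.toBasis, hent, Matrix.det_smul, Matrix.det_one_add_mul_comm,
    Matrix.det_fin_two]
  have huu : ∑ i, u i * u i = 1 := by
    have : inner ℝ u u = ∑ i, u i * u i := by
      rw [PiLp.inner_apply]
      exact Finset.sum_congr rfl fun i _ => by simp [pow_two]
    rw [← this, real_inner_self_eq_norm_sq, hu]
    norm_num
  have hyy : ∑ i, y i * y i = ‖y‖ ^ 2 := by
    have : inner ℝ y y = ∑ i, y i * y i := by
      rw [PiLp.inner_apply]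
      exact Finset.sum_congr rfl fun i _ => by simp [pow_two]
    rw [← this, real_inner_self_eq_norm_sq]
  have hyu : ∑ i, y i * u i = k := by
    have : inner ℝ y u = ∑ i, y i * u i := by
      rw [PiLp.inner_apply]
      simp [mul_comm]
    rw [← this, hk]
  have huy : ∑ i, u i * y i = k := by
    rw [← hyu]
    exact Finset.sum_congr rfl fun i _ => mul_comm _ _
  simp only [Matrix.add_apply, Matrix.mul_apply, Matrix.of_apply, Matrix.one_apply, if_true,
    one_ne_zero, zero_ne_one, if_false]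
  have e1 : ∑ i, (1 + k ^ 2)⁻¹ * (‖y‖ ^ 2 * u i - k * y i) * u i =
      (1 + k ^ 2)⁻¹ * (‖y‖ ^ 2 - k ^ 2) := by
    have : ∑ i, (1 + k ^ 2)⁻¹ * (‖y‖ ^ 2 * u i - k * y i) * u i =
        (1 + k ^ 2)⁻¹ * (‖y‖ ^ 2 * ∑ i, u i * u i - k * ∑ i, y i * u i) := by
      rw [Finset.mul_sum, Finset.mul_sum, ← Finset.sum_sub_distrib, Finset.mul_sum]
      exact Finset.sum_congr rfl fun i _ => by ring
    rw [this, huu, hyu]
    ring
  have e2 : ∑ i, (1 + k ^ 2)⁻¹ * (‖y‖ ^ 2 * u i - k * y i) * y i = 0 := by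
    have : ∑ i, (1 + k ^ 2)⁻¹ * (‖y‖ ^ 2 * u i - k * y i) * y i =
        (1 + k ^ 2)⁻¹ * (‖y‖ ^ 2 * ∑ i, u i * y i - k * ∑ i, y i * y i) := by
      rw [Finset.mul_sum, Finset.mul_sum, ← Finset.sum_sub_distrib, Finset.mul_sum]
      exact Finset.sum_congr rfl fun i _ => by ring
    rw [this, huy, hyy]
    ring
  have e3 : ∑ i, (1 + k ^ 2)⁻¹ * (-k * u i) * y i = -((1 + k ^ 2)⁻¹ * k ^ 2) := by
    have : ∑ i, (1 + k ^ 2)⁻¹ * (-k * u i) * y i = (1 + k ^ 2)⁻¹ * (-k * ∑ i, u i * y i) := by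
      rw [Finset.mul_sum, Finset.mul_sum]
      exact Finset.sum_congr rfl fun i _ => by ring
    rw [this, huy]
    ring
  rw [e1, e2, e3, Fintype.card_fin]
  have hc : (1 + k ^ 2) ≠ 0 := by positivity
  obtain ⟨m, rfl⟩ : ∃ m, n = m + 2 := ⟨n - 2, by omega⟩
  rw [Nat.add_sub_cancel, pow_add]
  field_simp
  ring

end Pool.Agent.Helper734.PV
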