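import Mathlib
import Pool.Agent.Helper734.PV.Defs
import Pool.Agent.Helper734.PV.JDc
import Pool.Agent.Helper734.PV.JIota
import Pool.Agent.Helper734.PV.JRf
import Pool.Agent.Helper734.PV.JSig
import Pool.Agent.Helper734.PV.KMop

set_option autoImplicit false

namespace Pool.Agent.Helper734.PV

open MeasureTheory Set Filter Topology Metric
open scoped ENNReal NNReal RealInnerProductSpace Pointwise




theorem leaf_sig {n : ℕ} (p : En (n + 1)) (hp : ‖p‖ = 1) (ι : En n →ₗᵢ[ℝ] En (n + 1))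
    (hι : ∀ y, inner ℝ (ι y) p = 0) (hs : ∀ w : En (n + 1), inner ℝ w p = 0 → ∃ y, ι y = w)
    (y u : En n) (hu : ‖u‖ = 1) (w : En (n + 1)) :
    leafA (sig p ι y) (Rf (zv p ι y) (ι u)) (sig p ι y - p) w
      = Rf (zv p ι y) (ι (Mop (fun _ => u) y
          (ContinuousLinearMap.adjoint ι.toContinuousLinearMap (Rf (zv p ι y) w)))) := by
  have hz0 : zv p ι y ≠ 0 := zv_ne p hp ι hι y
  have hz2 : ‖zv p ι y‖ ^ 2 ≠ 0 := pow_ne_zero _ (norm_ne_zero_iff.mpr hz0)
  have hRz : Rf (zv p ι y) (zv p ι y) = -(zv p ι y) := by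
    have h1 : Rf (zv p ι y) (zv p ι y) = zv p ι y -
        (2 / ‖zv p ι y‖ ^ 2) • ((inner ℝ (zv p ι y) (zv p ι y)) • zv p ι y) := rfl
    rw [h1, real_inner_self_eq_norm_sq, smul_smul, div_mul_cancel₀ _ hz2, two_smul]
    abel
  have hιp : ∀ a, inner ℝ p (ι a) = 0 := fun a => by
    rw [real_inner_comm]
    exact hι a
  have hpp : inner ℝ p p = 1 := by
    rw [real_inner_self_eq_norm_sq, hp]
    norm_num
  have hxR : sig p ι y = Rf (zv p ι y) p := sig_eq p hp ι hι y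
  have hxp : sig p ι y - p = lam y • zv p ι y := sig_sub p hp ι hι y
  have hlam : lam y ≠ 0 := by
    unfold lam
    positivity
  have hxx : inner ℝ (sig p ι y - p) (sig p ι y) = lam y := by
    rw [inner_sub_left, real_inner_self_eq_norm_sq, sig_norm p hp ι hι y,
      ← inner_p_sig p hp ι hι y]
    ring
  have hzι : ∀ a, inner ℝ (zv p ι y) (ι a) = inner ℝ y a := by
    intro a
    unfold zv
    rw [inner_sub_left, hιp, ι.inner_map_map, sub_zero]
  have hzv : inner ℝ (zv p ι y) (Rf (zv p ι y) (ι u)) = - inner ℝ y u := by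
    rw [← Rf_symm, hRz, inner_neg_left, hzι]
  have hpz : inner ℝ p (zv p ι y) = -1 := by
    unfold zv
    rw [inner_sub_right, hιp, hpp]
    norm_num
  obtain ⟨w', hw'⟩ : ∃ w', w' = Rf (zv p ι y) w := ⟨_, rfl⟩
  have hww' : w = Rf (zv p ι y) w' := by rw [hw', Rf_Rf _ _ hz0]
  obtain ⟨ξ, hξ⟩ : ∃ ξ, ξ = ContinuousLinearMap.adjoint ι.toContinuousLinearMap w' := ⟨_, rfl⟩
  have hιξ : ι ξ = w' - (inner ℝ p w') • p := by
    rw [hξ, iota_adj' p hp ι hι hs w']
    rfl
  have huξ : inner ℝ (ι u) w' = inner ℝ u ξ := by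
    have h1 : w' = ι ξ + (inner ℝ p w') • p := by rw [hιξ]; abel
    rw [h1, inner_add_right, inner_smul_right, hι, mul_zero, add_zero, ι.inner_map_map]
  have hvw : inner ℝ (Rf (zv p ι y) (ι u)) w = inner ℝ u ξ := by
    rw [Rf_symm, ← hw', huξ]
  have hMop : Mop (fun _ => u) y ξ = (inner ℝ u ξ) • y - (inner ℝ y u) • ξ := by
    rw [Mop_const]
    rfl
  rw [← hw', ← hξ, hMop]
  have hleaf : leafA (sig p ι y) (Rf (zv p ι y) (ι u)) (sig p ι y - p) w =
      (inner ℝ (sig p ι y - p) (sig p ι y))⁻¹ •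
        (((inner ℝ (sig p ι y - p) (Rf (zv p ι y) (ι u))) • w -
          (inner ℝ (Rf (zv p ι y) (ι u)) w) • (sig p ι y - p))
        - (inner ℝ (sig p ι y) ((inner ℝ (sig p ι y - p) (Rf (zv p ι y) (ι u))) • w -
          (inner ℝ (Rf (zv p ι y) (ι u)) w) • (sig p ι y - p))) • sig p ι y
        - (inner ℝ (Rf (zv p ι y) (ι u)) ((inner ℝ (sig p ι y - p) (Rf (zv p ι y) (ι u))) • w -
          (inner ℝ (Rf (zv p ι y) (ι u)) w) • (sig p ι y - p))) • Rf (zv p ι y) (ι u)) := rfl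
  have hb : (inner ℝ (sig p ι y - p) (Rf (zv p ι y) (ι u))) • w -
          (inner ℝ (Rf (zv p ι y) (ι u)) w) • (sig p ι y - p) =
      lam y • Rf (zv p ι y) ((-(inner ℝ y u)) • w' + (inner ℝ u ξ) • zv p ι y) := by
    rw [hvw, hxp, inner_smul_left, hzv, map_add, map_smul, map_smul, hRz, ← hww']
    simp only [conj_trivial]
    module
  rw [hleaf, hb, hxx, inner_smul_right, inner_smul_right]
  have hxb : inner ℝ (sig p ι y)
      (Rf (zv p ι y) ((-(inner ℝ y u)) • w' + (inner ℝ u ξ) • zv p ι y)) =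
      -(inner ℝ y u) * inner ℝ p w' - inner ℝ u ξ := by
    rw [hxR, Rf_inner _ _ _ hz0, inner_add_right, inner_smul_right, inner_smul_right, hpz]
    ring
  have hvb : inner ℝ (Rf (zv p ι y) (ι u))
      (Rf (zv p ι y) ((-(inner ℝ y u)) • w' + (inner ℝ u ξ) • zv p ι y)) = 0 := by
    rw [Rf_inner _ _ _ hz0, inner_add_right, inner_smul_right, inner_smul_right, huξ,
      real_inner_comm (zv p ι y) (ι u), hzι]
    ring
  rw [hxb, hvb, mul_zero, zero_smul, sub_zero, mul_smul, ← smul_sub, smul_smul,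
    inv_mul_cancel₀ hlam, one_smul, hxR, ← map_smul, ← map_sub]
  congr 1
  rw [map_sub, map_smul, map_smul, hιξ]
  have hzdef : zv p ι y = ι y - p := rfl
  rw [hzdef]
  module

end Pool.Agent.Helper734.PV
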