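import Mathlib
import Pool.Agent.Helper734.PV.Defs
import Pool.Agent.Helper734.PV.JDc
import Pool.Agent.Helper734.PV.JIota
import Pool.Agent.Helper734.PV.JPar
import Pool.Agent.Helper734.PV.JRf
import Pool.Agent.Helper734.PV.JSig
import Pool.Agent.Helper734.PV.JSur
import Pool.Agent.Helper734.PV.JUW
import Pool.Agent.Helper734.PV.KLeaf
import Pool.Agent.Helper734.PV.KMop

set_option autoImplicit false

namespace Pool.Agent.Helper734.PV

open MeasureTheory Set Filter Topology Metric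
open scoped ENNReal NNReal RealInnerProductSpace Pointwise




theorem kDcpar_sig_mem_aux {n : ℕ} (p : En (n + 1)) (hp : ‖p‖ = 1) (ι : En n →ₗᵢ[ℝ] En (n + 1))
    (hι : ∀ y, inner ℝ (ι y) p = 0) (y : En n) :
    sig p ι y ∈ Metric.sphere (0 : En (n + 1)) 1 \ {p} := by
  have hs : 0 < 1 + ‖y‖ ^ 2 := by positivity
  have hpy : inner ℝ p (ι y) = 0 := by rw [real_inner_comm]; exact hι y
  refine ⟨?_, ?_⟩
  · rw [mem_sphere_zero_iff_norm]
    have h1 : ‖(‖y‖ ^ 2 - 1) • p + (2 : ℝ) • ι y‖ ^ 2 = (1 + ‖y‖ ^ 2) ^ 2 := by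
      rw [norm_add_sq_real, inner_smul_left, inner_smul_right, hpy, norm_smul, norm_smul,
        ι.norm_map, hp, Real.norm_eq_abs, mul_one, sq_abs, Real.norm_eq_abs, mul_pow, sq_abs]
      simp
      ring
    have h2 : ‖(‖y‖ ^ 2 - 1) • p + (2 : ℝ) • ι y‖ = 1 + ‖y‖ ^ 2 :=
      (sq_eq_sq₀ (norm_nonneg _) hs.le).1 h1
    unfold sig
    rw [norm_smul, h2, norm_inv, Real.norm_of_nonneg hs.le, inv_mul_cancel₀ hs.ne']
  · intro h
    have h' : sig p ι y = p := h
    have h1 : inner ℝ (sig p ι y) p = 1 := by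
      rw [h', real_inner_self_eq_norm_sq, hp]; norm_num
    unfold sig at h1
    rw [inner_smul_left, inner_add_left, inner_smul_left, inner_smul_left, hι y,
      real_inner_self_eq_norm_sq, hp] at h1
    simp at h1
    field_simp at h1
    linarith

/-- the parallel field has covariant derivative `leafA` -/
theorem Dc_par {n : ℕ} (p : En (n + 1)) (hp : ‖p‖ = 1) (v : En (n + 1)) (hv : ‖v‖ = 1)
    (hvp : inner ℝ v p = 0) (W : En (n + 1) → En (n + 1)) (hW : Adm p W)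
    (hWv : ∀ x ∈ Metric.sphere (0 : En (n + 1)) 1 \ {p},
      W x = v - (inner ℝ v x / (1 - inner ℝ p x)) • (x - p))
    (x : En (n + 1)) (hx : x ∈ Metric.sphere (0 : En (n + 1)) 1 \ {p}) :
    Dc W x = leafA x (W x) (x - p) := by
  obtain ⟨ι, hι, hs⟩ := exists_iota p hp
  obtain ⟨y, rfl⟩ := sig_surj p hp ι hι hs x hx
  obtain ⟨u, rfl⟩ := hs v hvp
  have hU : UW p ι W = fun _ => u := by
    funext y'
    exact (par_UW p hp ι hι hs u W hW y').1 (hWv _ (kDcpar_sig_mem_aux p hp ι hι y'))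
  have hu : ‖u‖ = 1 := by rw [← ι.norm_map]; exact hv
  have hWy : W (sig p ι y) = Rf (zv p ι y) (ι u) := by
    rw [W_sig p hp ι hι hs W hW y, hU]
  ext1 w
  rw [Dc_eq p hp ι hι hs W hW y w, hU, hWy, leaf_sig p hp ι hι hs y u hu w]

theorem fderiv_zero {n : ℕ} (p : En (n + 1)) (hp : ‖p‖ = 1) (ι : En n →ₗᵢ[ℝ] En (n + 1))
    (hι : ∀ y, inner ℝ (ι y) p = 0) (hs : ∀ w : En (n + 1), inner ℝ w p = 0 → ∃ y, ι y = w)
    (W : En (n + 1) → En (n + 1)) (hW : Adm p W) (y : En n)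
    (h : Dc W (sig p ι y) = leafA (sig p ι y) (W (sig p ι y)) (sig p ι y - p)) :
    fderiv ℝ (UW p ι W) y = 0 := by
  have hz : zv p ι y ≠ 0 := zv_ne p hp ι hι y
  have hu : ‖UW p ι W y‖ = 1 := UW_norm p hp ι hι hs W hW y
  have hWy : W (sig p ι y) = Rf (zv p ι y) (ι (UW p ι W y)) := W_sig p hp ι hι hs W hW y
  have key : ∀ ξ : En n, Mop (UW p ι W) y ξ = Mop (fun _ => UW p ι W y) y ξ := by
    intro ξ
    have h1 : Dc W (sig p ι y) (Rf (zv p ι y) (ι ξ)) =
        leafA (sig p ι y) (W (sig p ι y)) (sig p ι y - p) (Rf (zv p ι y) (ι ξ)) := by rw [h]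
    rw [Dc_eq p hp ι hι hs W hW y, hWy, leaf_sig p hp ι hι hs y _ hu, Rf_Rf _ _ hz,
      iota_adj] at h1
    have h2 := congrArg (Rf (zv p ι y)) h1
    rw [Rf_Rf _ _ hz, Rf_Rf _ _ hz] at h2
    exact ι.injective h2
  have hl : (lam y)⁻¹ ≠ 0 := by
    unfold lam
    positivity
  ext1 ξ
  have h1 := key ξ
  rw [Mop_const] at h1
  unfold Mop at h1
  simp only [_root_.sub_apply, _root_.add_apply,
    _root_.smul_apply, ContinuousLinearMap.smulRight_apply] at h1
  have h2 : (lam y)⁻¹ • (fderiv ℝ (UW p ι W) y) ξ = 0 := by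
    have h3 := sub_left_inj.1 h1
    simpa using h3
  have h4 := (smul_eq_zero.1 h2).resolve_left hl
  rw [h4]; rfl

end Pool.Agent.Helper734.PV
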