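import Mathlib
import Pool.Agent.Helper734.PV.Defs

set_option autoImplicit false

namespace Pool.Agent.Helper734.PV

open MeasureTheory Set Filter Topology Metric
open scoped ENNReal NNReal RealInnerProductSpace Pointwise




/-- a curve on the sphere through `x` with velocity `τ` -/
theorem kDtan_exists_curve {E : Type*} [NormedAddCommGroup E] [InnerProductSpace ℝ E]
    (x τ : E) (hx : ‖x‖ = 1) (hτ : inner ℝ x τ = 0) :
    ∃ c : ℝ → E, c 0 = x ∧ HasDerivAt c τ 0 ∧ ∀ s, ‖c s‖ = 1 := by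
  refine ⟨fun s => (Real.sqrt (1 + s ^ 2 * ‖τ‖ ^ 2))⁻¹ • (x + s • τ), by simp, ?_, ?_⟩
  · have h1 : HasDerivAt (fun s : ℝ => 1 + s ^ 2 * ‖τ‖ ^ 2) 0 0 := by
      have := ((hasDerivAt_pow 2 (0 : ℝ)).mul_const (‖τ‖ ^ 2)).const_add 1
      simpa using this
    have h2 : HasDerivAt (fun s : ℝ => (Real.sqrt (1 + s ^ 2 * ‖τ‖ ^ 2))⁻¹) 0 0 := by
      have h := (h1.sqrt (by norm_num)).fun_inv (by norm_num)
      simpa using h
    have h3 : HasDerivAt (fun s : ℝ => x + s • τ) τ 0 := by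
      have := ((hasDerivAt_id (0 : ℝ)).smul_const τ).const_add x
      simpa using this
    have h := h2.fun_smul h3
    simpa using h
  · intro s
    have hn : ‖x + s • τ‖ ^ 2 = 1 + s ^ 2 * ‖τ‖ ^ 2 := by
      rw [norm_add_sq_real, inner_smul_right, hτ, hx, norm_smul, mul_pow, Real.norm_eq_abs, sq_abs]
      ring
    have hn' : ‖x + s • τ‖ = Real.sqrt (1 + s ^ 2 * ‖τ‖ ^ 2) := by
      rw [← hn, Real.sqrt_sq (norm_nonneg _)]
    have hpos : 0 < Real.sqrt (1 + s ^ 2 * ‖τ‖ ^ 2) := Real.sqrt_pos.2 (by positivity)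
    show ‖(Real.sqrt (1 + s ^ 2 * ‖τ‖ ^ 2))⁻¹ • (x + s • τ)‖ = 1
    rw [norm_smul, hn', norm_inv, Real.norm_of_nonneg hpos.le, inv_mul_cancel₀ hpos.ne']



/-- tangency of the derivative of a unit tangent field -/
theorem Dtan {n : ℕ} (p : En (n + 1)) (W : En (n + 1) → En (n + 1)) (hW : Adm p W)
    (x : En (n + 1)) (hx : x ∈ Metric.sphere (0 : En (n + 1)) 1 \ {p}) (τ : En (n + 1))
    (hτ : inner ℝ x τ = 0) :
    inner ℝ (W x) (fderiv ℝ W x τ) = 0 ∧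
      inner ℝ x (fderiv ℝ W x τ) = - inner ℝ τ (W x) := by
  obtain ⟨⟨O, hO, hsub, hdiff⟩, hprop⟩ := hW
  have hx1 : ‖x‖ = 1 := by simpa using hx.1
  have hxp : x ≠ p := hx.2
  obtain ⟨c, hc0, hc', hcn⟩ := kDtan_exists_curve x τ hx1 hτ
  have hWx : HasFDerivAt W (fderiv ℝ W x) x := by
    have h1 : DifferentiableAt ℝ W x :=
      (hdiff.contDiffAt (hO.mem_nhds (hsub hx))).differentiableAt (by simp)
    exact h1.hasFDerivAt
  have hev : ∀ᶠ s in 𝓝 (0 : ℝ), c s ∈ Metric.sphere (0 : En (n + 1)) 1 \ {p} := by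
    have hne : ∀ᶠ s in 𝓝 (0 : ℝ), c s ≠ p :=
      hc'.continuousAt.eventually_ne (by rw [hc0]; exact hxp)
    filter_upwards [hne] with s hs
    exact ⟨by simpa using hcn s, hs⟩
  have hWc : HasDerivAt (fun s => W (c s)) (fderiv ℝ W x τ) 0 := by
    have := HasFDerivAt.comp_hasDerivAt (0 : ℝ) (f := c) (l := W) (l' := fderiv ℝ W x)
      (f' := τ) (by rw [hc0]; exact hWx) hc'
    exact this
  have h1 : HasDerivAt (fun s => inner ℝ (W (c s)) (W (c s)))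
      (inner ℝ (W (c 0)) (fderiv ℝ W x τ) + inner ℝ (fderiv ℝ W x τ) (W (c 0))) 0 :=
    hWc.inner ℝ hWc
  have h2 : HasDerivAt (fun s => inner ℝ (W (c s)) (c s))
      (inner ℝ (W (c 0)) τ + inner ℝ (fderiv ℝ W x τ) (c 0)) 0 :=
    hWc.inner ℝ hc'
  have e1 : (fun s => inner ℝ (W (c s)) (W (c s))) =ᶠ[𝓝 (0 : ℝ)] fun _ => (1 : ℝ) := by
    filter_upwards [hev] with s hs
    rw [real_inner_self_eq_norm_sq, (hprop _ hs).1]; norm_num
  have e2 : (fun s => inner ℝ (W (c s)) (c s)) =ᶠ[𝓝 (0 : ℝ)] fun _ => (0 : ℝ) := by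
    filter_upwards [hev] with s hs
    exact (hprop _ hs).2
  have d1 := h1.unique ((hasDerivAt_const (0 : ℝ) (1 : ℝ)).congr_of_eventuallyEq e1)
  have d2 := h2.unique ((hasDerivAt_const (0 : ℝ) (0 : ℝ)).congr_of_eventuallyEq e2)
  rw [hc0] at d1 d2
  rw [real_inner_comm (W x) (fderiv ℝ W x τ)] at d1
  constructor
  · linarith
  · rw [real_inner_comm (fderiv ℝ W x τ) x, real_inner_comm (W x) τ]
    linarith

theorem Dc_props {n : ℕ} (p : En (n + 1)) (W : En (n + 1) → En (n + 1)) (hW : Adm p W)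
    (x : En (n + 1)) (hx : x ∈ Metric.sphere (0 : En (n + 1)) 1 \ {p}) :
    Dc W x x = 0 ∧ (∀ ξ, inner ℝ (Dc W x ξ) x = 0) ∧ (∀ ξ, inner ℝ (Dc W x ξ) (W x) = 0) := by
  have hx1 : ‖x‖ = 1 := by simpa using hx.1
  have hPj : ∀ w, Pj x w = w - inner ℝ x w • x := fun w => by
    simp [Pj]
  have hPx : Pj x x = 0 := by
    rw [hPj, real_inner_self_eq_norm_sq, hx1]; simp
  have hPo : ∀ w, inner ℝ x (Pj x w) = 0 := fun w => by
    rw [hPj, inner_sub_right, inner_smul_right, real_inner_self_eq_norm_sq, hx1]; simp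
  have hD : ∀ ξ, Dc W x ξ = Pj x (fderiv ℝ W x (Pj x ξ)) := fun ξ => rfl
  refine ⟨?_, ?_, ?_⟩
  · rw [hD, hPx, map_zero, map_zero]
  · intro ξ
    rw [hD, real_inner_comm]
    exact hPo _
  · intro ξ
    have ht := Dtan p W hW x hx (Pj x ξ) (hPo ξ)
    have hWx : inner ℝ (W x) x = 0 := (hW.2 x hx).2
    rw [hD, hPj (fderiv ℝ W x (Pj x ξ)), inner_sub_left, inner_smul_left,
      real_inner_comm (W x) (fderiv ℝ W x (Pj x ξ)), ht.1, real_inner_comm (W x) x, hWx]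
    simp

end Pool.Agent.Helper734.PV
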