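import Mathlib
import Pool.Agent.Helper734.PV.Defs

set_option autoImplicit false

namespace Pool.Agent.Helper734.PV

open MeasureTheory Set Filter Topology Metric
open scoped ENNReal NNReal RealInnerProductSpace Pointwise




theorem kPath_sp_aux_orth {n : ℕ} (hn : 2 ≤ n) (u0 : En n) :
    ∃ w : En n, ‖w‖ = 1 ∧ (inner ℝ u0 w : ℝ) = 0 := by
  have h1 : (Submodule.span ℝ {u0})ᗮ ≠ ⊥ := by
    intro h
    rw [Submodule.orthogonal_eq_bot_iff] at h
    have h2 := finrank_span_le_card (R := ℝ) ({u0} : Set (En n))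
    rw [h, finrank_top, finrank_euclideanSpace_fin] at h2
    simp at h2
    omega
  obtain ⟨v, hv, hv0⟩ := Submodule.exists_mem_ne_zero_of_ne_bot h1
  rw [Submodule.mem_orthogonal_singleton_iff_inner_right] at hv
  have hn0 : ‖v‖ ≠ 0 := norm_ne_zero_iff.mpr hv0
  refine ⟨‖v‖⁻¹ • v, ?_, ?_⟩
  · rw [norm_smul, norm_inv, norm_norm, inv_mul_cancel₀ hn0]
  · rw [inner_smul_right, hv, mul_zero]



theorem sphere_path {n : ℕ} (hn : 2 ≤ n) (u0 u1 : En n) (h0 : ‖u0‖ = 1) (h1 : ‖u1‖ = 1) :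
    ∃ γ : ℝ → En n, ContDiff ℝ ((⊤ : ℕ∞) : WithTop ℕ∞) γ ∧ (∀ t, ‖γ t‖ = 1) ∧
      γ 0 = u0 ∧ γ 1 = u1 := by
  obtain ⟨c, hc⟩ : ∃ c : ℝ, c = inner ℝ u0 u1 := ⟨_, rfl⟩
  obtain ⟨r, hr⟩ : ∃ r : En n, r = u1 - c • u0 := ⟨_, rfl⟩
  have hc1 : |c| ≤ 1 := by
    have := abs_real_inner_le_norm u0 u1
    rw [h0, h1, mul_one, ← hc] at this
    exact this
  have hcc := abs_le.mp hc1
  have hr0 : (inner ℝ u0 r : ℝ) = 0 := by
    rw [hr, inner_sub_right, inner_smul_right, real_inner_self_eq_norm_sq, h0, ← hc]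
    ring
  have hrn : ‖r‖ ^ 2 = 1 - c ^ 2 := by
    have h2 : ‖u1‖ ^ 2 = ‖c • u0 + r‖ ^ 2 := by
      rw [hr]; congr 2; abel
    rw [norm_add_sq_real, norm_smul, h0, h1, real_inner_smul_left, hr0, Real.norm_eq_abs,
      mul_one, sq_abs] at h2
    linarith
  obtain ⟨w, hw1, hw2, hw3⟩ : ∃ w : En n, ‖w‖ = 1 ∧ (inner ℝ u0 w : ℝ) = 0 ∧ r = ‖r‖ • w := by
    by_cases h : r = 0
    · obtain ⟨w, hw1, hw2⟩ := kPath_sp_aux_orth hn u0
      exact ⟨w, hw1, hw2, by rw [h]; simp⟩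
    · have hn0 : ‖r‖ ≠ 0 := norm_ne_zero_iff.mpr h
      refine ⟨‖r‖⁻¹ • r, ?_, ?_, ?_⟩
      · rw [norm_smul, norm_inv, norm_norm, inv_mul_cancel₀ hn0]
      · rw [inner_smul_right, hr0, mul_zero]
      · rw [smul_smul, mul_inv_cancel₀ hn0, one_smul]
  refine ⟨fun t => Real.cos (Real.arccos c * t) • u0 + Real.sin (Real.arccos c * t) • w,
    ?_, ?_, ?_, ?_⟩
  · have e1 : ContDiff ℝ ((⊤ : ℕ∞) : WithTop ℕ∞) (fun t : ℝ => Real.arccos c * t) :=
      contDiff_const.mul contDiff_id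
    exact ((Real.contDiff_cos.comp e1).smul contDiff_const).add
      ((Real.contDiff_sin.comp e1).smul contDiff_const)
  · intro t
    have h2 : ‖Real.cos (Real.arccos c * t) • u0 + Real.sin (Real.arccos c * t) • w‖ ^ 2 = 1 := by
      rw [norm_add_sq_real, norm_smul, norm_smul, h0, hw1, real_inner_smul_left,
        real_inner_smul_right, hw2, Real.norm_eq_abs, Real.norm_eq_abs, mul_one, mul_one,
        sq_abs, sq_abs]
      have := Real.sin_sq_add_cos_sq (Real.arccos c * t)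
      linarith
    rw [← Real.sqrt_sq (norm_nonneg (Real.cos (Real.arccos c * t) • u0 +
      Real.sin (Real.arccos c * t) • w)), h2, Real.sqrt_one]
  · simp
  · simp only [mul_one]
    rw [Real.cos_arccos hcc.1 hcc.2, Real.sin_arccos, ← hrn, Real.sqrt_sq (norm_nonneg r), ← hw3,
      hr]
    abel

end Pool.Agent.Helper734.PV
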