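import Mathlib
import Pool.Agent.Helper734.PV.Defs
import Pool.Agent.Helper734.PV.JIota
import Pool.Agent.Helper734.PV.JRf
import Pool.Agent.Helper734.PV.JSig
import Pool.Agent.Helper734.PV.JSur

set_option autoImplicit false

namespace Pool.Agent.Helper734.PV

open MeasureTheory Set Filter Topology Metric
open scoped ENNReal NNReal RealInnerProductSpace Pointwise




theorem kXH_Rf_smul_aux {n : ℕ} (c : ℝ) (hc : c ≠ 0) (z : En (n + 1)) : Rf (c • z) = Rf z := by
  ext1 w
  unfold Rf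
  simp only [ContinuousLinearMap.sub_apply, ContinuousLinearMap.id_apply,
    ContinuousLinearMap.smul_apply, ContinuousLinearMap.smulRight_apply, innerSL_apply_apply,
    inner_smul_left, norm_smul, smul_smul]
  congr 2
  have hn : ‖c‖ ^ 2 = c ^ 2 := by rw [Real.norm_eq_abs, sq_abs]
  simp only [mul_pow, hn, conj_trivial]
  by_cases hz : ‖z‖ = 0
  · simp [hz]
  · field_simp

theorem kXH_Rf_apply_aux {n : ℕ} (z w : En (n + 1)) :
    Rf z w = w - (2 / ‖z‖ ^ 2) • (inner ℝ z w) • z := by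
  unfold Rf
  simp only [ContinuousLinearMap.sub_apply, ContinuousLinearMap.id_apply,
    ContinuousLinearMap.smul_apply, ContinuousLinearMap.smulRight_apply, innerSL_apply_apply]

theorem kXH_lam_pos_aux {n : ℕ} (y : En n) : 0 < lam y := by
  unfold lam; positivity

theorem stq_sig {n : ℕ} (p : En (n + 1)) (hp : ‖p‖ = 1) (ι : En n →ₗᵢ[ℝ] En (n + 1))
    (hι : ∀ y, inner ℝ (ι y) p = 0) (y : En n) : stq p ι (sig p ι y) = y := by
  unfold stq
  rw [inner_p_sig p hp ι hι y]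
  have h0 : ContinuousLinearMap.adjoint ι.toContinuousLinearMap p = 0 := by
    refine ext_inner_right ℝ (fun w => ?_)
    rw [ContinuousLinearMap.adjoint_inner_left, inner_zero_left]
    have := hι w
    rw [real_inner_comm] at this
    exact this
  have h1 := iota_adj ι y
  have hpos : (1 + ‖y‖ ^ 2) ≠ 0 := by positivity
  unfold sig
  rw [map_smul, map_add, map_smul, map_smul, h0, h1, smul_zero, zero_add, smul_smul, smul_smul]
  have : (lam y)⁻¹ * (1 + ‖y‖ ^ 2)⁻¹ * 2 = 1 := by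
    unfold lam
    field_simp
  rw [this, one_smul]

theorem kXH_XH_val' {n : ℕ} (p : En (n + 1)) (hp : ‖p‖ = 1) (ι : En n →ₗᵢ[ℝ] En (n + 1))
    (hι : ∀ y, inner ℝ (ι y) p = 0) (H : ℝ → En n → En n) (t : ℝ) (y : En n) :
    XH p ι H t (sig p ι y) = Rf (zv p ι y) (ι (H t y)) := by
  unfold XH
  rw [stq_sig p hp ι hι y, sig_sub p hp ι hι y, kXH_Rf_smul_aux _ (kXH_lam_pos_aux y).ne']

theorem XH_fam {n : ℕ} (p : En (n + 1)) (hp : ‖p‖ = 1) (ι : En n →ₗᵢ[ℝ] En (n + 1))
    (hι : ∀ y, inner ℝ (ι y) p = 0) (hs : ∀ w : En (n + 1), inner ℝ w p = 0 → ∃ y, ι y = w)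
    (H : ℝ → En n → En n)
    (hH : ContDiff ℝ ((⊤ : ℕ∞) : WithTop ℕ∞) (Function.uncurry H)) (hH1 : ∀ t y, ‖H t y‖ = 1) :
    AdmFam p (XH p ι H) := by
  constructor
  · refine ⟨{x | inner ℝ p x ≠ 1}, ?_, ?_, ?_⟩
    · exact isOpen_ne_fun (by fun_prop) (by fun_prop)
    · rintro x ⟨hx, hxp⟩
      rw [mem_sphere_zero_iff_norm] at hx
      intro h
      apply hxp
      have := (inner_eq_one_iff_of_norm_eq_one (𝕜 := ℝ) hp hx).1 h
      exact this.symm
    · have hstq : ContDiffOn ℝ ((⊤ : ℕ∞) : WithTop ℕ∞) (fun q : ℝ × En (n + 1) => stq p ι q.2)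
          (Set.univ ×ˢ {x | inner ℝ p x ≠ 1}) := by
        have ha : ContDiffOn ℝ ((⊤ : ℕ∞) : WithTop ℕ∞)
            (fun q : ℝ × En (n + 1) => (1 - inner ℝ p q.2 : ℝ)⁻¹)
            (Set.univ ×ˢ {x | inner ℝ p x ≠ 1}) := by
          refine ContDiffOn.inv ?_ ?_
          · refine ContDiff.contDiffOn ?_
            exact contDiff_const.sub (contDiff_const.inner ℝ contDiff_snd)
          · rintro ⟨t, x⟩ ⟨_, hx⟩
            simp only [Set.mem_setOf_eq] at hx
            exact sub_ne_zero.2 (Ne.symm hx)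
        have hb : ContDiffOn ℝ ((⊤ : ℕ∞) : WithTop ℕ∞)
            (fun q : ℝ × En (n + 1) => ContinuousLinearMap.adjoint ι.toContinuousLinearMap q.2)
            (Set.univ ×ˢ {x | inner ℝ p x ≠ 1}) :=
          ((ContinuousLinearMap.adjoint ι.toContinuousLinearMap).contDiff.comp
            contDiff_snd).contDiffOn
        exact ha.smul hb
      have hw : ContDiffOn ℝ ((⊤ : ℕ∞) : WithTop ℕ∞)
          (fun q : ℝ × En (n + 1) => ι (H q.1 (stq p ι q.2)))
          (Set.univ ×ˢ {x | inner ℝ p x ≠ 1}) := by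
        have h1 : ContDiffOn ℝ ((⊤ : ℕ∞) : WithTop ℕ∞)
            (fun q : ℝ × En (n + 1) => Function.uncurry H (q.1, stq p ι q.2))
            (Set.univ ×ˢ {x | inner ℝ p x ≠ 1}) :=
          hH.comp_contDiffOn (contDiff_fst.contDiffOn.prodMk hstq)
        exact ι.toContinuousLinearMap.contDiff.comp_contDiffOn h1
      have hsub : ContDiff ℝ ((⊤ : ℕ∞) : WithTop ℕ∞) (fun q : ℝ × En (n + 1) => q.2 - p) :=
        contDiff_snd.sub contDiff_const
      have heq : Function.uncurry (XH p ι H) = fun q : ℝ × En (n + 1) =>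
          ι (H q.1 (stq p ι q.2)) - (2 / ‖q.2 - p‖ ^ 2) •
            (inner ℝ (q.2 - p) (ι (H q.1 (stq p ι q.2)))) • (q.2 - p) := by
        funext q
        rcases q with ⟨t, x⟩
        simp only [Function.uncurry_apply_pair, XH, kXH_Rf_apply_aux]
      rw [heq]
      have hdiv : ContDiffOn ℝ ((⊤ : ℕ∞) : WithTop ℕ∞)
          (fun q : ℝ × En (n + 1) => 2 / ‖q.2 - p‖ ^ 2)
          (Set.univ ×ˢ {x | inner ℝ p x ≠ 1}) := by
        refine ContDiffOn.div contDiffOn_const (hsub.norm_sq ℝ).contDiffOn ?_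
        rintro ⟨t, x⟩ ⟨_, hx⟩
        simp only [Set.mem_setOf_eq] at hx
        have : x - p ≠ 0 := by
          intro h
          rw [sub_eq_zero] at h
          rw [h, real_inner_self_eq_norm_sq, hp] at hx
          norm_num at hx
        simpa using this
      exact hw.sub (hdiv.smul ((hsub.contDiffOn.inner ℝ hw).smul hsub.contDiffOn))
  · intro t x hx
    obtain ⟨y, rfl⟩ := sig_surj p hp ι hι hs x hx
    have hz := zv_ne p hp ι hι y
    rw [kXH_XH_val' p hp ι hι H t y]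
    constructor
    · have h1 := Rf_inner (zv p ι y) (ι (H t y)) (ι (H t y)) hz
      rw [real_inner_self_eq_norm_sq, real_inner_self_eq_norm_sq, ι.norm_map, hH1] at h1
      have h2 : 0 ≤ ‖Rf (zv p ι y) (ι (H t y))‖ := norm_nonneg _
      nlinarith
    · rw [sig_eq p hp ι hι y, Rf_inner _ _ _ hz]
      exact hι _

theorem XH_val {n : ℕ} (p : En (n + 1)) (hp : ‖p‖ = 1) (ι : En n →ₗᵢ[ℝ] En (n + 1))
    (hι : ∀ y, inner ℝ (ι y) p = 0) (H : ℝ → En n → En n) (t : ℝ) (y : En n) :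
    XH p ι H t (sig p ι y) = Rf (zv p ι y) (ι (H t y)) :=
  kXH_XH_val' p hp ι hι H t y

end Pool.Agent.Helper734.PV
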