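import Mathlib
import Pool.Agent.Helper734.PV.Defs
import Pool.Agent.Helper734.PV.JIota
import Pool.Agent.Helper734.PV.JSig
import Pool.Agent.Helper734.PV.JSur
import Pool.Agent.Helper734.PV.JUW
import Pool.Agent.Helper734.PV.KPath
import Pool.Agent.Helper734.PV.KXH

set_option autoImplicit false

namespace Pool.Agent.Helper734.PV

open MeasureTheory Set Filter Topology Metric
open scoped ENNReal NNReal RealInnerProductSpace Pointwise




/-- everything invariant along smooth families is constant on admissible fields -/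
theorem homotopy_principle {n : ℕ} (hn : 2 ≤ n) (p : En (n + 1)) (hp : ‖p‖ = 1) {α : Type*}
    (I : (En (n + 1) → En (n + 1)) → α)
    (hext : ∀ W W' : En (n + 1) → En (n + 1),
      (∀ x ∈ Metric.sphere (0 : En (n + 1)) 1 \ {p}, W x = W' x) → I W = I W')
    (hhom : ∀ X : ℝ → En (n + 1) → En (n + 1), AdmFam p X → I (X 0) = I (X 1))
    (W0 W1 : En (n + 1) → En (n + 1)) (h0 : Adm p W0) (h1 : Adm p W1) : I W0 = I W1 := by
  obtain ⟨ι, hι, hs⟩ := exists_iota p hp
  have key : ∀ W : En (n + 1) → En (n + 1), Adm p W →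
      I W = I (XH p ι (fun _ _ => UW p ι W 0) 0) := by
    intro W hW
    have hH : ContDiff ℝ ((⊤ : ℕ∞) : WithTop ℕ∞)
        (Function.uncurry (fun (t : ℝ) (y : En n) => UW p ι W (t • y))) := by
      have h2 := (UW_contDiff p hp ι hι W hW).comp
        ((contDiff_fst (𝕜 := ℝ) (E := ℝ) (F := En n)).smul contDiff_snd)
      exact h2
    have hX := hhom _ (XH_fam p hp ι hι hs (fun (t : ℝ) (y : En n) => UW p ι W (t • y)) hH
      (fun t y => UW_norm p hp ι hι hs W hW _))
    have e1 : I (XH p ι (fun (t : ℝ) (y : En n) => UW p ι W (t • y)) 1) = I W := by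
      apply hext
      intro x hx
      obtain ⟨y, rfl⟩ := sig_surj p hp ι hι hs x hx
      rw [XH_val p hp ι hι, W_sig p hp ι hι hs W hW, one_smul]
    have e0 : XH p ι (fun (t : ℝ) (y : En n) => UW p ι W (t • y)) 0 =
        XH p ι (fun _ _ => UW p ι W 0) 0 := by
      funext x
      show Rf (x - p) (ι (UW p ι W ((0:ℝ) • (stq p ι x)))) = Rf (x - p) (ι (UW p ι W 0))
      rw [zero_smul]
    rw [e0, e1] at hX
    exact hX.symm
  have hc : ∀ u0 u1 : En n, ‖u0‖ = 1 → ‖u1‖ = 1 →
      I (XH p ι (fun _ _ => u0) 0) = I (XH p ι (fun _ _ => u1) 0) := by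
    intro u0 u1 hu0 hu1
    obtain ⟨γ, hγ, hγ1, e0, e1⟩ := sphere_path hn u0 u1 hu0 hu1
    have hH : ContDiff ℝ ((⊤ : ℕ∞) : WithTop ℕ∞)
        (Function.uncurry (fun (t : ℝ) (_ : En n) => γ t)) := by
      have h2 := hγ.comp (contDiff_fst (𝕜 := ℝ) (E := ℝ) (F := En n))
      exact h2
    have hX := hhom _ (XH_fam p hp ι hι hs (fun (t : ℝ) (_ : En n) => γ t) hH
      (fun t y => hγ1 t))
    have f0 : XH p ι (fun (t : ℝ) (_ : En n) => γ t) 0 = XH p ι (fun _ _ => u0) 0 := by
      funext x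
      show Rf (x - p) (ι (γ 0)) = Rf (x - p) (ι u0)
      rw [e0]
    have f1 : XH p ι (fun (t : ℝ) (_ : En n) => γ t) 1 = XH p ι (fun _ _ => u1) 0 := by
      funext x
      show Rf (x - p) (ι (γ 1)) = Rf (x - p) (ι u1)
      rw [e1]
    rw [f0, f1] at hX
    exact hX
  rw [key W0 h0, key W1 h1]
  exact hc _ _ (UW_norm p hp ι hι hs W0 h0 0) (UW_norm p hp ι hι hs W1 h1 0)

end Pool.Agent.Helper734.PV
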