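import Mathlib
import Pool.Agent.Helper734.PV.Defs
import Pool.Agent.Helper734.PV.JRf

set_option autoImplicit false

namespace Pool.Agent.Helper734.PV

open MeasureTheory Set Filter Topology Metric
open scoped ENNReal NNReal RealInnerProductSpace Pointwise




theorem kRf_omg_sub_smul {n : ℕ} (Y z : En (n + 1)) (c : ℝ) : omg Y (z - c • Y) = omg Y z := by
  unfold omg
  congr 1
  have h1 : ‖z - c • Y‖ ^ 2 = ‖z‖ ^ 2 - 2 * c * inner ℝ Y z + c ^ 2 * ‖Y‖ ^ 2 := by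
    rw [norm_sub_sq_real, real_inner_smul_right, norm_smul, real_inner_comm, mul_pow,
      Real.norm_eq_abs, sq_abs]
    ring
  have h2 : inner ℝ Y (z - c • Y) = inner ℝ Y z - c * ‖Y‖ ^ 2 := by
    rw [inner_sub_right, real_inner_smul_right, real_inner_self_eq_norm_sq]
  rw [h1, h2]
  ring

theorem omg_Rf {n : ℕ} (p q Y : En (n + 1)) (hY : Y ≠ 0) :
    omg Y (Rf Y q - p) = omg Y (q - p) := by
  have h1 : Rf Y q - p = (q - p) - ((2 / ‖Y‖ ^ 2) * inner ℝ Y q) • Y := by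
    have h2 : Rf Y q = q - (2 / ‖Y‖ ^ 2) • ((inner ℝ Y q) • Y) := rfl
    rw [h2, smul_smul]
    abel
  rw [h1, kRf_omg_sub_smul]

theorem Rf_ne {n : ℕ} (p q Y : En (n + 1)) (hp : ‖p‖ = 1) (hq : ‖q‖ = 1)
    (hY : omg Y (q - p) ≠ 0) : Y ≠ 0 ∧ Rf Y q ∈ Metric.sphere (0 : En (n + 1)) 1 \ {p} := by
  have hY0 : Y ≠ 0 := by
    rintro rfl
    apply hY
    unfold omg
    simp
  refine ⟨hY0, ?_, ?_⟩
  · rw [mem_sphere_zero_iff_norm]
    have h1 := Rf_inner Y q q hY0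
    rw [real_inner_self_eq_norm_sq, real_inner_self_eq_norm_sq, hq] at h1
    have h2 : 0 ≤ ‖Rf Y q‖ := norm_nonneg _
    nlinarith
  · intro h
    rw [Set.mem_singleton_iff] at h
    apply hY
    rw [← omg_Rf p q Y hY0, h, sub_self]
    unfold omg
    simp

end Pool.Agent.Helper734.PV
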