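import Mathlib
import Pool.Agent.Helper734.PV.Defs
import Pool.Agent.Helper734.PV.JRf
import Pool.Agent.Helper734.PV.KRf

set_option autoImplicit false

namespace Pool.Agent.Helper734.PV

open MeasureTheory Set Filter Topology Metric
open scoped ENNReal NNReal RealInnerProductSpace Pointwise




lemma kPsiD_aRf {n : ℕ} (z v : En (n + 1)) :
    Rf z v = v - ((2 / ‖z‖ ^ 2) * inner ℝ z v) • z := by
  simp [Rf, smul_smul]

lemma kPsiD_aPsi {n : ℕ} (p q : En (n + 1)) (W : En (n + 1) → En (n + 1)) :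
    Psi p q W = fun Y => (‖Y‖ ^ 2) • W (q - ((2 / ‖Y‖ ^ 2) * inner ℝ q Y) • Y)
      - (2 * inner ℝ Y (W (q - ((2 / ‖Y‖ ^ 2) * inner ℝ q Y) • Y))) • Y
      + (inner ℝ (q - p) Y) • q := by
  funext Y
  unfold Psi
  rw [kPsiD_aRf Y q, kPsiD_aRf Y (W _), real_inner_comm Y (q - p), real_inner_comm Y q]
  rcases eq_or_ne Y 0 with rfl | hY
  · simp
  have hN : ‖Y‖ ^ 2 ≠ 0 := pow_ne_zero _ (norm_ne_zero_iff.mpr hY)
  congr 1
  rw [smul_sub, smul_smul]
  congr 2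
  rw [← mul_assoc, mul_div_cancel₀ _ hN]



/-- derivative of `Psi` -/
theorem Psi_deriv {n : ℕ} (p q : En (n + 1)) (hp : ‖p‖ = 1) (hq : ‖q‖ = 1)
    (W : En (n + 1) → En (n + 1)) (hW : Adm p W) (Y : En (n + 1))
    (hY : omg Y (q - p) ≠ 0) (ξ : En (n + 1)) :
    Rf Y (fderiv ℝ (Psi p q W) Y ξ)
      = (2 * inner ℝ Y ξ) • W (Rf Y q)
        - (2 : ℝ) • (inner ℝ Y (W (Rf Y q)) • ξ - inner ℝ (W (Rf Y q)) ξ • Y)
        + (2 : ℝ) • fderiv ℝ W (Rf Y q) (inner ℝ Y (Rf Y q) • ξ - inner ℝ (Rf Y q) ξ • Y)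
        + inner ℝ (q - p) ξ • Rf Y q := by
  obtain ⟨hY0, hxs⟩ := Rf_ne p q Y hp hq hY
  have hN : ‖Y‖ ^ 2 ≠ 0 := pow_ne_zero _ (norm_ne_zero_iff.mpr hY0)
  obtain ⟨⟨O, hO, hsub, hWO⟩, -⟩ := hW
  have hWd : DifferentiableAt ℝ W (Rf Y q) :=
    ((hWO.contDiffAt (hO.mem_nhds (hsub hxs))).differentiableAt (by simp))
  -- the curve
  have hn : HasFDerivAt (fun Y : En (n + 1) => ‖Y‖ ^ 2) (2 • innerSL ℝ Y) Y :=
    (hasStrictFDerivAt_norm_sq Y).hasFDerivAt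
  have hi : HasFDerivAt (fun Y : En (n + 1) => inner ℝ q Y) (innerSL ℝ q) Y :=
    (innerSL ℝ q).hasFDerivAt
  have hinv : HasFDerivAt (fun Y : En (n + 1) => 2 / ‖Y‖ ^ 2)
      (2 • ((-((‖Y‖ ^ 2) ^ 2)⁻¹) • (2 • innerSL ℝ Y))) Y := by
    have h1 := ((hasDerivAt_inv hN).comp_hasFDerivAt Y hn).const_smul (2:ℝ)
    have h2 : (fun Y : En (n + 1) => 2 / ‖Y‖ ^ 2) = (2:ℝ) • ((fun t : ℝ => t⁻¹) ∘
        fun Y : En (n + 1) => ‖Y‖ ^ 2) := by
      funext Y
      simp [div_eq_mul_inv]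
    rw [h2]
    exact_mod_cast h1
  have hs := hinv.mul hi
  have hx := (hs.smul (hasFDerivAt_id Y)).const_sub q
  have hxe : q - ((2 / ‖Y‖ ^ 2) * inner ℝ q Y) • Y = Rf Y q := by
    rw [kPsiD_aRf, real_inner_comm Y q]
  obtain ⟨X', hX', hXξ⟩ : ∃ X' : En (n + 1) →L[ℝ] En (n + 1),
      HasFDerivAt (fun Y : En (n + 1) => q - ((2 / ‖Y‖ ^ 2) * inner ℝ q Y) • Y) X' Y ∧
      X' ξ = (2 / ‖Y‖ ^ 2) • (inner ℝ Y (Rf Y q) • ξ - inner ℝ (Rf Y q) ξ • Y) := by
    refine ⟨_, hx, ?_⟩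
    simp only [_root_.add_apply, _root_.sub_apply, _root_.smul_apply,
      ContinuousLinearMap.smulRight_apply, _root_.neg_apply, ContinuousLinearMap.id_apply,
      innerSL_apply_apply, id_eq, Pi.mul_apply]
    rw [kPsiD_aRf]
    simp only [inner_sub_right, inner_sub_left, real_inner_smul_left, real_inner_smul_right,
      real_inner_self_eq_norm_sq, nsmul_eq_mul, smul_eq_mul, real_inner_comm Y q]
    set N := ‖Y‖ ^ 2
    match_scalars
    · field_simp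
      ring
    · field_simp
      ring
  have hWd' : HasFDerivAt W (fderiv ℝ W (Rf Y q)) (q - ((2 / ‖Y‖ ^ 2) * inner ℝ q Y) • Y) := by
    rw [hxe]; exact hWd.hasFDerivAt
  have hWx := hWd'.comp Y hX'
  have hA := hn.smul hWx
  have hB := (((hasFDerivAt_id Y).inner ℝ hWx).const_mul 2).smul (hasFDerivAt_id Y)
  have hC := ((innerSL ℝ (q - p)).hasFDerivAt (x := Y)).smul_const q
  have hP := (hA.sub hB).add hC
  have hF := hP.congr_of_eventuallyEq (f₁ := Psi p q W)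
    (Filter.Eventually.of_forall fun Y' => congrFun (kPsiD_aPsi p q W) Y')
  rw [hF.fderiv]
  simp only [_root_.add_apply, _root_.sub_apply, _root_.smul_apply,
      ContinuousLinearMap.smulRight_apply, _root_.neg_apply, ContinuousLinearMap.id_apply,
      innerSL_apply_apply, id_eq, Function.comp_apply, ContinuousLinearMap.comp_apply,
      fderivInnerCLM_apply, ContinuousLinearMap.prod_apply, hXξ, hxe]
  rw [map_smul]
  set w := W (Rf Y q) with hw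
  set d := fderiv ℝ W (Rf Y q) (inner ℝ Y (Rf Y q) • ξ - inner ℝ (Rf Y q) ξ • Y) with hd
  simp only [kPsiD_aRf Y, inner_add_right, inner_sub_right, real_inner_smul_right,
      real_inner_self_eq_norm_sq, nsmul_eq_mul, smul_eq_mul, real_inner_comm w ξ]
  set N := ‖Y‖ ^ 2
  match_scalars
  all_goals field_simp
  all_goals ring

end Pool.Agent.Helper734.PV
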