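import Mathlib
import Pool.Agent.Helper734.PV.Defs
import Pool.Agent.Helper734.PV.JRf
import Pool.Agent.Helper734.PV.KDtan
import Pool.Agent.Helper734.PV.KPsiD
import Pool.Agent.Helper734.PV.KRf

set_option autoImplicit false

namespace Pool.Agent.Helper734.PV

open MeasureTheory Set Filter Topology Metric
open scoped ENNReal NNReal RealInnerProductSpace Pointwise




/-- the determinant of the derivative of `Psi` is the kernel -/
theorem Psi_det {n : ℕ} (p q : En (n + 1)) (hp : ‖p‖ = 1) (hq : ‖q‖ = 1)
    (W : En (n + 1) → En (n + 1)) (hW : Adm p W) (Y : En (n + 1))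
    (hY : omg Y (q - p) ≠ 0) :
    LinearMap.det (fderiv ℝ (Psi p q W) Y).toLinearMap
      = (-2) ^ n * Jdet (Rf Y q) (W (Rf Y q)) (Rf Y q - p) (Dc W (Rf Y q)) Y := by
  obtain ⟨hYne, hxs⟩ := Rf_ne p q Y hp hq hY
  have hderiv := Psi_deriv p q hp hq W hW Y hY
  obtain ⟨hv1, hvx⟩ := hW.2 _ hxs
  have htan := Dtan p W hW _ hxs
  obtain ⟨hAx, hAox, hAov⟩ := Dc_props p W hW _ hxs
  have hRRq : Rf Y (Rf Y q) = q := Rf_Rf Y q hYne
  have hx1 : ‖Rf Y q‖ = 1 := by
    have := hxs.1
    simpa using this
  have hYn : ‖Y‖ ^ 2 ≠ 0 := by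
    have : ‖Y‖ ≠ 0 := norm_ne_zero_iff.mpr hYne
    positivity
  have hqx : q = Rf Y q - (2 * inner ℝ Y (Rf Y q) / ‖Y‖ ^ 2) • Y := by
    conv_lhs => rw [← hRRq]
    simp only [Rf, ContinuousLinearMap.sub_apply, ContinuousLinearMap.id_apply,
      ContinuousLinearMap.smul_apply, ContinuousLinearMap.smulRight_apply, innerSL_apply_apply,
      smul_smul]
    ring_nf
  -- the determinant of the reflection
  have hRdet : LinearMap.det (Rf Y).toLinearMap = -1 := by
    have e : (Rf Y).toLinearMap
        = LinearMap.transvection (innerSL ℝ Y).toLinearMap (-(2 / ‖Y‖ ^ 2) • Y) := by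
      ext1 ξ
      simp only [LinearMap.transvection.apply, Rf, ContinuousLinearMap.coe_coe,
        ContinuousLinearMap.sub_apply, ContinuousLinearMap.id_apply,
        ContinuousLinearMap.smul_apply, ContinuousLinearMap.smulRight_apply, innerSL_apply_apply,
        smul_smul]
      rw [sub_eq_add_neg, ← neg_smul]
      congr 2
      ring
    rw [e, LinearMap.transvection.det]
    simp only [ContinuousLinearMap.coe_coe, map_smul, innerSL_apply_apply,
      real_inner_self_eq_norm_sq, smul_eq_mul]
    field_simp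
    ring
  generalize Rf Y q = x at *
  generalize hvd : W x = v at *
  generalize hAd : Dc W x = A at *
  have hxx : inner ℝ x x = 1 := by rw [real_inner_self_eq_norm_sq, hx1]; norm_num
  have hvv : inner ℝ v v = 1 := by rw [real_inner_self_eq_norm_sq, hv1]; norm_num
  have hxv : inner ℝ x v = 0 := by rw [real_inner_comm]; exact hvx
  set c : ℝ := 2 * inner ℝ Y x / ‖Y‖ ^ 2 with hc
  have key : ∀ ξ, Rf Y (fderiv ℝ (Psi p q W) Y ξ)
      = (-2 : ℝ) • LinearMap.transvection (innerSL ℝ x).toLinearMap (-(3 / 2 : ℝ) • x)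
        (LinearMap.transvection (innerSL ℝ v).toLinearMap (-(2 : ℝ) • v - c • x)
          (Kop x v (x - p) A Y ξ)) := by
    intro ξ
    set τ : En (n + 1) := inner ℝ Y x • ξ - inner ℝ x ξ • Y with hτ
    set η : En (n + 1) := inner ℝ Y v • ξ - inner ℝ v ξ • Y with hη
    have hxτ : inner ℝ x τ = 0 := by
      rw [hτ, inner_sub_right, inner_smul_right, inner_smul_right, real_inner_comm Y x]
      ring
    have hvη : inner ℝ v η = 0 := by
      rw [hη, inner_sub_right, inner_smul_right, inner_smul_right, real_inner_comm Y v]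
      ring
    obtain ⟨ht1, ht2⟩ := htan τ hxτ
    have hAτ : A τ = fderiv ℝ W x τ - inner ℝ x (fderiv ℝ W x τ) • x := by
      rw [← hAd]
      simp only [Dc, Pj, ContinuousLinearMap.comp_apply, ContinuousLinearMap.sub_apply,
        ContinuousLinearMap.id_apply, ContinuousLinearMap.smulRight_apply, innerSL_apply_apply,
        hxτ, zero_smul, sub_zero]
    have hxη : inner ℝ x (fderiv ℝ W x τ) = inner ℝ x η := by
      rw [ht2, hτ, hη, inner_sub_left, inner_sub_right, inner_smul_left, inner_smul_left,
        inner_smul_right, inner_smul_right, real_inner_comm ξ v, real_inner_comm Y x]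
      simp only [conj_trivial]
      ring
    have hqp : inner ℝ (q - p) ξ = inner ℝ (x - p) ξ - c * inner ℝ Y ξ := by
      have : q - p = (x - p) - c • Y := by
        conv_lhs => rw [hqx]
        abel
      rw [this, inner_sub_left, inner_smul_left]
      simp
    have hK : Kop x v (x - p) A Y ξ
        = inner ℝ (x - p) ξ • x + inner ℝ Y ξ • v + (η - inner ℝ x η • x) - A τ := by
      simp only [Kop, ContinuousLinearMap.comp_apply, ContinuousLinearMap.sub_apply,
        ContinuousLinearMap.add_apply, ContinuousLinearMap.smul_apply,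
        ContinuousLinearMap.id_apply, ContinuousLinearMap.smulRight_apply, innerSL_apply_apply]
      rw [← hτ, ← hη, hvη, zero_smul, sub_zero]
    have hr1 : inner ℝ x (A τ) = 0 := by rw [real_inner_comm]; exact hAox τ
    have hr2 : inner ℝ v (A τ) = 0 := by rw [real_inner_comm]; exact hAov τ
    have hvK : inner ℝ v (Kop x v (x - p) A Y ξ) = inner ℝ Y ξ := by
      rw [hK]
      simp only [inner_sub_right, inner_add_right, inner_smul_right, hvx, hvv, hvη, hr2]
      ring
    have hxK : inner ℝ x (Kop x v (x - p) A Y ξ) = inner ℝ (x - p) ξ := by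
      rw [hK]
      simp only [inner_sub_right, inner_add_right, inner_smul_right, hxx, hxv, hr1]
      ring
    rw [hderiv ξ, hqp]
    simp only [LinearMap.transvection.apply, ContinuousLinearMap.coe_coe, innerSL_apply_apply,
      inner_add_right, inner_sub_right, inner_smul_right, hvK, hxK, hxx, hxv]
    rw [hK, hAτ, hxη]
    module
  have hcomp : (Rf Y).toLinearMap ∘ₗ (fderiv ℝ (Psi p q W) Y).toLinearMap
      = (-2 : ℝ) • (LinearMap.transvection (innerSL ℝ x).toLinearMap (-(3 / 2 : ℝ) • x)
        ∘ₗ (LinearMap.transvection (innerSL ℝ v).toLinearMap (-(2 : ℝ) • v - c • x)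
          ∘ₗ (Kop x v (x - p) A Y).toLinearMap)) := by
    ext1 ξ
    exact key ξ
  have hdet := congrArg LinearMap.det hcomp
  rw [LinearMap.det_smul, LinearMap.det_comp, LinearMap.det_comp, LinearMap.det_comp,
    LinearMap.transvection.det, LinearMap.transvection.det, hRdet] at hdet
  simp only [ContinuousLinearMap.coe_coe, map_smul, map_sub, innerSL_apply_apply, hxx, hvv, hvx,
    smul_eq_mul, finrank_euclideanSpace, Fintype.card_fin] at hdet
  rw [Jdet]
  have h2 : (-2 : ℝ) ^ (n + 1) = (-2) * (-2) ^ n := by rw [pow_succ]; ring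
  rw [h2] at hdet
  linear_combination -hdet

end Pool.Agent.Helper734.PV
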