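import Mathlib
import Pool.Agent.Helper734.PV.Defs
import Pool.Agent.Helper734.PV.JRf
import Pool.Agent.Helper734.PV.KRf

set_option autoImplicit false

namespace Pool.Agent.Helper734.PV

open MeasureTheory Set Filter Topology Metric
open scoped ENNReal NNReal RealInnerProductSpace Pointwise




theorem kPsiS_pd_Rf_apply {n : ℕ} (z a : En (n + 1)) :
    Rf z a = a - (2 / ‖z‖ ^ 2) • ((inner ℝ z a : ℝ) • z) := by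
  simp [Rf]

theorem kPsiS_pd_Rf {n : ℕ} {E' : Type*} [NormedAddCommGroup E'] [NormedSpace ℝ E'] {s : Set E'}
    {Z w : E' → En (n + 1)} (hZ : ContDiffOn ℝ ((⊤ : ℕ∞) : WithTop ℕ∞) Z s)
    (hw : ContDiffOn ℝ ((⊤ : ℕ∞) : WithTop ℕ∞) w s) (hne : ∀ a ∈ s, Z a ≠ 0) :
    ContDiffOn ℝ ((⊤ : ℕ∞) : WithTop ℕ∞) (fun a => Rf (Z a) (w a)) s := by
  simp only [kPsiS_pd_Rf_apply]
  have h1 : ContDiffOn ℝ ((⊤ : ℕ∞) : WithTop ℕ∞) (fun a => 2 / ‖Z a‖ ^ 2) s :=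
    contDiffOn_const.div (hZ.norm_sq ℝ) (fun a ha => pow_ne_zero 2 (norm_ne_zero_iff.mpr (hne a ha)))
  exact hw.sub (h1.smul ((hZ.inner ℝ hw).smul hZ))

theorem Psi_diff {n : ℕ} (p q : En (n + 1)) (hp : ‖p‖ = 1) (hq : ‖q‖ = 1)
    (X : ℝ → En (n + 1) → En (n + 1)) (hX : AdmFam p X) :
    ∃ O : Set (En (n + 1)), IsOpen O ∧ (∀ Y, omg Y (q - p) ≠ 0 → Y ∈ O) ∧
      ContDiffOn ℝ ((⊤ : ℕ∞) : WithTop ℕ∞) (fun a : ℝ × En (n + 1) => Psi p q (X a.1) a.2)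
        (Set.univ ×ˢ O) := by
  obtain ⟨⟨O', hO', hsub, hXd⟩, _⟩ := hX
  have hne : IsOpen {Y : En (n + 1) | Y ≠ 0} := isOpen_ne
  have hρ : ContDiffOn ℝ ((⊤ : ℕ∞) : WithTop ℕ∞) (fun Y : En (n + 1) => Rf Y q)
      {Y : En (n + 1) | Y ≠ 0} :=
    kPsiS_pd_Rf contDiffOn_id contDiffOn_const (fun a ha => ha)
  refine ⟨{Y : En (n + 1) | Y ≠ 0} ∩ (fun Y => Rf Y q) ⁻¹' O',
    hρ.continuousOn.isOpen_inter_preimage hne hO', ?_, ?_⟩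
  · intro Y hY
    obtain ⟨h1, h2⟩ := Rf_ne p q Y hp hq hY
    exact ⟨h1, hsub h2⟩
  · have hsnd : ContDiffOn ℝ ((⊤ : ℕ∞) : WithTop ℕ∞) (fun a : ℝ × En (n + 1) => a.2)
        (Set.univ ×ˢ ({Y : En (n + 1) | Y ≠ 0} ∩ (fun Y => Rf Y q) ⁻¹' O')) :=
      contDiff_snd.contDiffOn
    have hfst : ContDiffOn ℝ ((⊤ : ℕ∞) : WithTop ℕ∞) (fun a : ℝ × En (n + 1) => a.1)
        (Set.univ ×ˢ ({Y : En (n + 1) | Y ≠ 0} ∩ (fun Y => Rf Y q) ⁻¹' O')) :=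
      contDiff_fst.contDiffOn
    have h1 : ContDiffOn ℝ ((⊤ : ℕ∞) : WithTop ℕ∞) (fun a : ℝ × En (n + 1) => Rf a.2 q)
        (Set.univ ×ˢ ({Y : En (n + 1) | Y ≠ 0} ∩ (fun Y => Rf Y q) ⁻¹' O')) :=
      kPsiS_pd_Rf hsnd contDiffOn_const (fun a ha => ha.2.1)
    have h2 : ContDiffOn ℝ ((⊤ : ℕ∞) : WithTop ℕ∞)
        (fun a : ℝ × En (n + 1) => X a.1 (Rf a.2 q))
        (Set.univ ×ˢ ({Y : En (n + 1) | Y ≠ 0} ∩ (fun Y => Rf Y q) ⁻¹' O')) := by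
      have h3 := hXd.comp (hfst.prodMk h1) (fun a ha => ⟨Set.mem_univ _, ha.2.2⟩)
      exact h3
    have h3 : ContDiffOn ℝ ((⊤ : ℕ∞) : WithTop ℕ∞)
        (fun a : ℝ × En (n + 1) => Rf a.2 (X a.1 (Rf a.2 q)))
        (Set.univ ×ˢ ({Y : En (n + 1) | Y ≠ 0} ∩ (fun Y => Rf Y q) ⁻¹' O')) :=
      kPsiS_pd_Rf hsnd h2 (fun a ha => ha.2.1)
    unfold Psi
    exact ((hsnd.norm_sq ℝ).smul h3).add ((hsnd.inner ℝ contDiffOn_const).smul contDiffOn_const)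

end Pool.Agent.Helper734.PV
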