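import Mathlib
import Pool.Agent.Helper734.PV.Defs

set_option autoImplicit false

namespace Pool.Agent.Helper734.PV

open MeasureTheory Set Filter Topology Metric
open scoped ENNReal NNReal RealInnerProductSpace Pointwise




theorem toSphere_mp {n : ℕ} (R : En (n + 1) ≃ₗᵢ[ℝ] En (n + 1)) :
    MeasurePreserving (fun x : Metric.sphere (0 : En (n + 1)) 1 =>
      (⟨R x, by simp⟩ : Metric.sphere (0 : En (n + 1)) 1))
      (Measure.toSphere (volume : Measure (En (n + 1))))
      (Measure.toSphere (volume : Measure (En (n + 1)))) := by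
  have hcont : Continuous (fun x : Metric.sphere (0 : En (n + 1)) 1 =>
      (⟨R x, by simp⟩ : Metric.sphere (0 : En (n + 1)) 1)) :=
    Continuous.subtype_mk (R.continuous.comp continuous_subtype_val) _
  refine ⟨hcont.measurable, ?_⟩
  ext s hs
  rw [Measure.map_apply hcont.measurable hs, Measure.toSphere_apply' _ (hcont.measurable hs),
    Measure.toSphere_apply' _ hs]
  congr 1
  have hset : (Ioo (0 : ℝ) 1 • ((↑) '' ((fun x : Metric.sphere (0 : En (n + 1)) 1 =>
      (⟨R x, by simp⟩ : Metric.sphere (0 : En (n + 1)) 1)) ⁻¹' s)) : Set (En (n + 1))) =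
      R ⁻¹' (Ioo (0 : ℝ) 1 • ((↑) '' s)) := by
    ext x
    constructor
    · rintro ⟨r, hr, _, ⟨ξ, hξ, rfl⟩, rfl⟩
      refine ⟨r, hr, R ξ, ⟨_, hξ, rfl⟩, ?_⟩
      show r • R ξ = R (r • (ξ : En (n + 1)))
      rw [map_smul]
    · rintro ⟨r, hr, _, ⟨η, hη, rfl⟩, h⟩
      have h' : r • (η : En (n + 1)) = R x := h
      refine ⟨r, hr, R.symm η, ⟨⟨R.symm η, by simp⟩, ?_, rfl⟩, ?_⟩
      · show (⟨R (R.symm η), _⟩ : Metric.sphere (0 : En (n + 1)) 1) ∈ s
        have : (⟨R (R.symm η), by simp⟩ : Metric.sphere (0 : En (n + 1)) 1) = η :=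
          Subtype.ext (R.apply_symm_apply _)
        rw [this]
        exact hη
      · show r • R.symm (η : En (n + 1)) = x
        rw [← map_smul, h', R.symm_apply_apply]
  rw [hset]
  exact R.measurePreserving.measure_preimage_emb R.toHomeomorph.measurableEmbedding _

end Pool.Agent.Helper734.PV
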