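import Mathlib
import Pool.Agent.Helper734.PV.Defs
import Pool.Agent.Helper734.PV.JIota
import Pool.Agent.Helper734.PV.JPar
import Pool.Agent.Helper734.PV.JSig
import Pool.Agent.Helper734.PV.JSur
import Pool.Agent.Helper734.PV.JUW
import Pool.Agent.Helper734.PV.KAe
import Pool.Agent.Helper734.PV.KDcpar

set_option autoImplicit false

namespace Pool.Agent.Helper734.PV

open MeasureTheory Set Filter Topology Metric
open scoped ENNReal NNReal RealInnerProductSpace Pointwise




/-- equality almost everywhere forces a parallel field -/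
theorem uniq {n : ℕ} (hn : 2 ≤ n) (p : En (n + 1)) (hp : ‖p‖ = 1)
    (W : En (n + 1) → En (n + 1)) (hW : Adm p W)
    (h : ∀ᵐ x : Metric.sphere (0 : En (n + 1)) 1
      ∂(Measure.toSphere (volume : Measure (En (n + 1)))), (x : En (n + 1)) ≠ p →
        Dc W x = leafA (x : En (n + 1)) (W x) (x - p)) :
    ∃ v : En (n + 1), ‖v‖ = 1 ∧ inner ℝ v p = 0 ∧
        ∀ x ∈ Metric.sphere (0 : En (n + 1)) 1 \ {p},
          W x = v - (inner ℝ v x / (1 - inner ℝ p x)) • (x - p) := by
  obtain ⟨ι, hι, hs⟩ := exists_iota p hp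
  have h1 := ae_flat (by omega) p hp ι hι hs (fun x => Dc W x = leafA x (W x) (x - p)) h
  have h2 : ∀ᵐ y : En n, fderiv ℝ (UW p ι W) y = 0 := by
    filter_upwards [h1] with y hy
    exact fderiv_zero p hp ι hι hs W hW y hy
  have hcd := UW_contDiff p hp ι hι W hW
  have hc : Continuous (fderiv ℝ (UW p ι W)) := hcd.continuous_fderiv (by simp)
  have h3 : fderiv ℝ (UW p ι W) = fun _ => 0 :=
    (Continuous.ae_eq_iff_eq volume hc continuous_const).1 h2
  have hd : Differentiable ℝ (UW p ι W) := hcd.differentiable (by simp)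
  have h4 : ∀ y, UW p ι W y = UW p ι W 0 := fun y =>
    is_const_of_fderiv_eq_zero hd (fun y => congrFun h3 y) y 0
  refine ⟨ι (UW p ι W 0), ?_, hι _, ?_⟩
  · rw [ι.norm_map]
    exact UW_norm p hp ι hι hs W hW 0
  · intro x hx
    obtain ⟨y, rfl⟩ := sig_surj p hp ι hι hs x hx
    exact (par_UW p hp ι hι hs (UW p ι W 0) W hW y).2 (h4 y)

end Pool.Agent.Helper734.PV
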