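import Mathlib
import Pool.Agent.Helper734.PV.Defs
import Pool.Agent.Helper734.PV.JIota
import Pool.Agent.Helper734.PV.JLint
import Pool.Agent.Helper734.PV.JPar
import Pool.Agent.Helper734.PV.JSig
import Pool.Agent.Helper734.PV.KMop

set_option autoImplicit false

namespace Pool.Agent.Helper734.PV

open MeasureTheory Set Filter Topology Metric
open scoped ENNReal NNReal RealInnerProductSpace Pointwise




theorem kVol_kVol_dens {n : ℕ} (hn : 2 ≤ n) (u y : En n) (hu : ‖u‖ = 1) :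
    dens (fun _ : En n => u) y ≤ 2 ^ n * (1 + ‖y‖ ^ 2) ^ (-((n : ℝ) + 1) / 2) := by
  unfold dens
  rw [gram_leaf_flat hn u y hu]
  unfold lam
  have hs : (0 : ℝ) < 1 + ‖y‖ ^ 2 := by positivity
  have h1 : (inner ℝ y u) ^ 2 ≤ ‖y‖ ^ 2 := by
    have h := abs_real_inner_le_norm y u
    rw [hu, mul_one] at h
    exact sq_le_sq' (by linarith [neg_abs_le (inner ℝ y u)]) ((le_abs_self _).trans h)
  have h2 : (1 + (inner ℝ y u) ^ 2) ^ (n - 2) * (1 + ‖y‖ ^ 2) ≤ (1 + ‖y‖ ^ 2) ^ (n - 1) := by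
    have h3 : (1 + (inner ℝ y u) ^ 2) ^ (n - 2) ≤ (1 + ‖y‖ ^ 2) ^ (n - 2) :=
      pow_le_pow_left₀ (by positivity) (by linarith) _
    have h4 : (1 + ‖y‖ ^ 2) ^ (n - 1) = (1 + ‖y‖ ^ 2) ^ (n - 2) * (1 + ‖y‖ ^ 2) := by
      rw [← pow_succ]
      congr 1
      omega
    rw [h4]
    exact mul_le_mul_of_nonneg_right h3 hs.le
  have h5 : Real.sqrt ((1 + (inner ℝ y u) ^ 2) ^ (n - 2) * (1 + ‖y‖ ^ 2))
      ≤ (1 + ‖y‖ ^ 2) ^ (((n : ℝ) - 1) / 2) := by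
    refine (Real.sqrt_le_sqrt h2).trans (le_of_eq ?_)
    rw [Real.sqrt_eq_rpow, ← Real.rpow_natCast, ← Real.rpow_mul hs.le]
    congr 1
    rw [Nat.cast_sub (by omega)]
    push_cast
    ring
  have h6 : (2 / (1 + ‖y‖ ^ 2)) ^ n = 2 ^ n * (1 + ‖y‖ ^ 2) ^ (-(n : ℝ)) := by
    rw [div_pow, Real.rpow_neg hs.le, Real.rpow_natCast, div_eq_mul_inv]
  rw [h6]
  calc 2 ^ n * (1 + ‖y‖ ^ 2) ^ (-(n : ℝ)) *
        Real.sqrt ((1 + (inner ℝ y u) ^ 2) ^ (n - 2) * (1 + ‖y‖ ^ 2))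
      ≤ 2 ^ n * (1 + ‖y‖ ^ 2) ^ (-(n : ℝ)) * (1 + ‖y‖ ^ 2) ^ (((n : ℝ) - 1) / 2) :=
        mul_le_mul_of_nonneg_left h5 (by positivity)
    _ = 2 ^ n * (1 + ‖y‖ ^ 2) ^ (-((n : ℝ) + 1) / 2) := by
        rw [mul_assoc, ← Real.rpow_add hs]
        congr 2
        ring

theorem vol_const_lt {n : ℕ} (hn : 2 ≤ n) (u : En n) (hu : ‖u‖ = 1) :
    vol' (fun _ : En n => u) < ⊤ := by
  unfold vol'
  have hI : Integrable (fun y : En n => (2 : ℝ) ^ n * (1 + ‖y‖ ^ 2) ^ (-((n : ℝ) + 1) / 2)) := by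
    refine Integrable.const_mul ?_ _
    refine integrable_rpow_neg_one_add_norm_sq ?_
    rw [finrank_euclideanSpace, Fintype.card_fin]
    linarith
  refine lt_of_le_of_lt (lintegral_mono fun y => ENNReal.ofReal_le_ofReal (kVol_kVol_dens hn u y hu)) ?_
  exact hI.lintegral_lt_top

theorem volS_par_lt {n : ℕ} (hn : 2 ≤ n) (p : En (n + 1)) (hp : ‖p‖ = 1) (v : En (n + 1))
    (hv : ‖v‖ = 1) (hvp : inner ℝ v p = 0) :
    volS (fun x => v - (inner ℝ v x / (1 - inner ℝ p x)) • (x - p)) < ⊤ := by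
  obtain ⟨ι, hι, hs⟩ := exists_iota p hp
  obtain ⟨u, hu⟩ := hs v hvp
  have hun : ‖u‖ = 1 := by rw [← ι.norm_map u, hu, hv]
  have hW := par_adm p hp v hv hvp
  rw [volS_eq (by omega) p hp ι hι hs _ hW]
  have hU : UW p ι (fun x => v - (inner ℝ v x / (1 - inner ℝ p x)) • (x - p)) = fun _ => u := by
    funext y
    refine (par_UW p hp ι hι hs u _ hW y).1 ?_
    rw [hu]
  rw [hU]
  exact vol_const_lt hn u hun

end Pool.Agent.Helper734.PV
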